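import Pool.Agent.Lib.YL60.Cost

namespace Pool.Agent.Lib.YL60

open Finset
open scoped Classical

variable {V : Type} [Fintype V] {w : V → V → ℝ} {t : V → V → V → ℝ} {ρ : ℝ}
  {G : SimpleGraph V} {ν H : ℝ} {k : ℕ} {S : Finset V} {g : V → ℝ} {p : V → V}

lemma card_fib_le (hH : ∀ x, ((univ.filter fun y => ¬ G.Adj x y).card : ℝ) ≤ H)
    (I : Inv G w t ν k S g p) (x : V) :
    ((((cn G S)ᶜ).filter fun y => p y = x).card : ℝ) ≤ H := by
  refine le_trans ?_ (hH x)
  have : ((cn G S)ᶜ).filter (fun y => p y = x) ⊆ univ.filter fun y => ¬ G.Adj x y := by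
    intro y hy
    obtain ⟨a, b⟩ := mem_filter.1 hy
    have := (I.out y (mem_compl.1 a)).2.1
    rw [b] at this
    simpa using this
  exact_mod_cast card_le_card this

lemma sum_fib (I : Inv G w t ν k S g p) (f : V → ℝ) :
    ∑ y ∈ (cn G S)ᶜ, f (p y) =
      ∑ x ∈ S, ((((cn G S)ᶜ).filter fun y => p y = x).card : ℝ) * f x := by
  rw [← sum_fiberwise_of_maps_to (s := (cn G S)ᶜ) (t := S) (g := p)
    (fun y hy => (I.out y (mem_compl.1 hy)).1)]
  refine sum_congr rfl fun x _ => ?_
  rw [sum_congr rfl (g := fun _ => f x) fun y hy => by rw [(mem_filter.1 hy).2], sum_const,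
    nsmul_eq_mul]

/-- The accounting along the greedy clique. -/
lemma Dat.base (h : Dat w t ρ) (H0 : 0 ≤ H)
    (hH : ∀ x, ((univ.filter fun y => ¬ G.Adj x y).card : ℝ) ≤ H)
    (I : Inv G w t ν k S g p) {T1 E aR aT DR DT : ℝ} (hT : T1 = (cn G S).card)
    (hE : E = k * H - ((cn G S)ᶜ).card) (haR : aR = ∑ y ∈ (cn G S)ᶜ, mc w t S y)
    (haT : aT = ∑ y ∈ cn G S, mc w t S y) (hDR : DR = ∑ y ∈ (cn G S)ᶜ, ∑ z, w y z)
    (hDT : DT = ∑ y ∈ cn G S, ∑ z, w y z) :
    0 ≤ E ∧ T1 * (H * (aR + aT - ρ * cost w t S + ν * cost w t S)) ≤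
      T1 * (DR + ν * aR) + E * (DT + ν * aT) := by
  set M : V → ℝ := fun x => ∑ z, w x z + ν * g x with hM
  set c : V → ℝ := fun x => ((((cn G S)ᶜ).filter fun y => p y = x).card : ℝ) with hc
  have c1 : ∀ x, c x ≤ H := card_fib_le hH I
  have c2 : ∑ x ∈ S, (H - c x) = E := by
    have := sum_fib I fun _ => (1 : ℝ)
    simp only [sum_const, nsmul_eq_mul, mul_one] at this
    rw [sum_sub_distrib, sum_const, I.cl.2, nsmul_eq_mul, hE, this]
  have e0 : 0 ≤ E := c2 ▸ sum_nonneg fun x _ => sub_nonneg.2 (c1 x)
  refine ⟨e0, ?_⟩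
  have r1 : ∑ x ∈ S, c x * M x ≤ DR + ν * aR := by
    rw [← sum_fib I M, hDR, haR, mul_sum, ← sum_add_distrib]
    exact sum_le_sum fun y hy => (I.out y (mem_compl.1 hy)).2.2
  have r2 : T1 * ∑ x ∈ S, (H - c x) * M x ≤ E * (DT + ν * aT) := by
    rw [hDT, haT, mul_sum (cn G S) _ ν, ← sum_add_distrib, mul_sum (cn G S) _ E, hT,
      ← nsmul_eq_mul]
    refine card_nsmul_le_sum _ _ _ fun y hy => ?_
    rw [← c2, sum_mul]
    exact sum_le_sum fun x hx =>
      mul_le_mul_of_nonneg_left (I.inn y hy x hx) (sub_nonneg.2 (c1 x))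
  have r3 : aR + aT - ρ * cost w t S + ν * cost w t S ≤ ∑ x ∈ S, M x := by
    have a1 : aR + aT = ∑ x ∈ S, ∑ z, w x z + ∑ y, tau t S y := by
      rw [haR, haT, add_comm, sum_add_sum_compl, sum_comm, ← sum_add_distrib]
      rfl
    have a2 := h.sum_tau S
    rw [hM, sum_add_distrib, ← mul_sum, I.gs]
    linarith
  have r4 : H * ∑ x ∈ S, M x = ∑ x ∈ S, c x * M x + ∑ x ∈ S, (H - c x) * M x := by
    rw [mul_sum, ← sum_add_distrib]
    exact sum_congr rfl fun x _ => by ring
  have T0 : 0 ≤ T1 := hT ▸ Nat.cast_nonneg _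
  have r5 := mul_le_mul_of_nonneg_left (mul_le_mul_of_nonneg_left r3 H0) T0
  have r6 := mul_le_mul_of_nonneg_left r1 T0
  rw [r4, mul_add] at r5
  linarith

/-- Vertices outside the common neighbourhood with exactly one non-neighbour in `S`. -/
noncomputable def good (G : SimpleGraph V) (S : Finset V) (p : V → V) (x : V) : Finset V :=
  ((cn G S)ᶜ).filter fun y => p y = x ∧ ∀ a ∈ S, a ≠ x → G.Adj a y

lemma good_le (hH : ∀ x, ((univ.filter fun y => ¬ G.Adj x y).card : ℝ) ≤ H)
    (I : Inv G w t ν k S g p) (x : V) : ((good G S p x).card : ℝ) ≤ H := by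
  refine le_trans ?_ (card_fib_le hH I x)
  have : good G S p x ⊆ ((cn G S)ᶜ).filter fun y => p y = x := fun y hy =>
    mem_filter.2 ⟨(mem_filter.1 hy).1, (mem_filter.1 hy).2.1⟩
  exact_mod_cast card_le_card this

lemma good_sum (hH : ∀ x, ((univ.filter fun y => ¬ G.Adj x y).card : ℝ) ≤ H)
    (I : Inv G w t ν k S g p) :
    ∑ x ∈ S, (H - (good G S p x).card) ≤ 2 * (k * H - ((cn G S)ᶜ).card) := by
  have a1 : ∑ x ∈ S, ∑ y, (if ¬ G.Adj x y then (1 : ℝ) else 0) ≤ k * H := by
    have := sum_le_card_nsmul S _ H fun x _ => hH x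
    rw [nsmul_eq_mul, I.cl.2] at this
    refine le_trans (le_of_eq (sum_congr rfl fun x _ => ?_)) this
    rw [← sum_filter]
    simp
  have a2 : ∀ y ∈ (cn G S)ᶜ, 2 - ∑ x ∈ S, (if y ∈ good G S p x then (1 : ℝ) else 0) ≤
      ∑ x ∈ S, (if ¬ G.Adj x y then (1 : ℝ) else 0) := by
    intro y hy
    obtain ⟨b1, b2, -⟩ := I.out y (mem_compl.1 hy)
    have nn : ∀ x ∈ S, (0 : ℝ) ≤ if ¬ G.Adj x y then 1 else 0 := fun x _ => by
      split_ifs <;> norm_num
    have n2 : ∀ x ∈ S, (0 : ℝ) ≤ if y ∈ good G S p x then 1 else 0 := fun x _ => by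
      split_ifs <;> norm_num
    by_cases c : y ∈ good G S p (p y)
    · have e1 := single_le_sum nn b1
      have e2 := single_le_sum n2 b1
      simp only [b2, c, not_false_eq_true, if_true] at e1 e2
      linarith
    · have : ∃ a ∈ S, a ≠ p y ∧ ¬ G.Adj a y := by
        by_contra hn
        push Not at hn
        exact c (mem_filter.2 ⟨hy, rfl, hn⟩)
      obtain ⟨a, ha, ne, na⟩ := this
      have e1 := sum_le_sum_of_subset_of_nonneg
        (show ({a, p y} : Finset V) ⊆ S by simp [insert_subset_iff, ha, b1])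
        fun x hx _ => nn x hx
      rw [sum_pair ne] at e1
      simp only [b2, na, not_false_eq_true, if_true] at e1
      have := sum_nonneg n2
      linarith
  have a3 := sum_le_sum a2
  have a4 : ∑ y ∈ (cn G S)ᶜ, ∑ x ∈ S, (if ¬ G.Adj x y then (1 : ℝ) else 0) ≤ k * H := by
    refine le_trans ?_ a1
    rw [sum_comm]
    exact sum_le_sum fun x _ => sum_le_sum_of_subset_of_nonneg (subset_univ _) fun y _ _ => by
      split_ifs <;> norm_num
  have a5 : ∑ y ∈ (cn G S)ᶜ, ∑ x ∈ S, (if y ∈ good G S p x then (1 : ℝ) else 0) =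
      ∑ x ∈ S, ((good G S p x).card : ℝ) := by
    rw [sum_comm]
    refine sum_congr rfl fun x _ => ?_
    rw [sum_ite_mem, inter_eq_right.2 (show good G S p x ⊆ (cn G S)ᶜ from filter_subset _ _)]
    simp
  rw [sum_sub_distrib, a5, sum_const, nsmul_eq_mul] at a3
  rw [sum_sub_distrib, sum_const, I.cl.2, nsmul_eq_mul]
  linarith

lemma Dat.mc_ge (h : Dat w t ρ) (hcl : ∀ K, G.IsNClique (k + 1) K → 1 ≤ cost w t K)
    (hS : G.IsNClique k S) {v : V} (hv : v ∈ cn G S) : 1 - cost w t S ≤ mc w t S v := by
  obtain ⟨n1, h1⟩ := clique_insert hS (mem_cn.1 hv)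
  have := hcl _ h1
  rw [h.cost_insert n1] at this
  linarith

lemma Dat.mc_erase (h : Dat w t ρ) {i : V} (hi : i ∈ S) (v : V) :
    mc w t (S.erase i) v + w i v ≤ mc w t S v := by
  have a := h.mc_insert (notMem_erase i S) v
  rw [insert_erase hi] at a
  have := sum_nonneg fun a (_ : a ∈ S.erase i) => h.t0 a i v
  linarith

/-- Lower bound for the weighted degree of one common neighbour. -/
lemma Dat.vertex (h : Dat w t ρ) (H0 : 0 ≤ H)
    (hH : ∀ x, ((univ.filter fun y => ¬ G.Adj x y).card : ℝ) ≤ H)
    (hcl : ∀ K, G.IsNClique (k + 1) K → 1 ≤ cost w t K) (I : Inv G w t ν k S g p)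
    {ω : ℝ} (hω : ω = 1 - cost w t S) (ω0 : 0 ≤ ω) (π : V → V) {v j : V} (hv : v ∈ cn G S)
    (hi : π v ∈ S) (hj : j ∈ S) (hij : j ≠ π v) (hw : w j v ≤ w (π v) v) {P : V → ℝ}
    (hP : ∀ y, P y = max (ω - 2 * mc w t (S.erase (π y)) y) 0) :
    ∑ y ∈ (cn G S).filter (fun y => π y = π v), min (P v) (P y) + H * w j v -
        2 * ω * (k * H - ((cn G S)ᶜ).card) - ∑ y ∈ (cn G S)ᶜ, mc w t S y - 2 * ρ ≤
      H * (mc w t S v - ω) + ∑ z, w v z := by
  set i := π v with hi'
  set u := max (ω - mc w t (S.erase i) v) 0 with hu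
  set s := max (w j v - (mc w t S v - ω)) 0 with hs
  have ω1 : ω ≤ 1 := by have := h.cost_nonneg S; linarith
  have xi0 := h.mc_nonneg (S.erase i) v
  have ei := h.mc_erase hi v
  have ej := h.mc_erase hj v
  have u0 : 0 ≤ u := le_max_right _ _
  have s0 : 0 ≤ s := le_max_right _ _
  have su : s ≤ u := max_le_max (by linarith) le_rfl
  have uω : u ≤ ω := max_le (by linarith) ω0
  have Pu : P v ≤ u := by
    rw [hP v]
    exact max_le_max (by linarith) le_rfl
  have vS := mem_cn.1 hv
  set θ : V → V → ℝ := fun x y => ∑ a ∈ S.erase x, t a v y with hθ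
  have θ0 : ∀ x y, 0 ≤ θ x y := fun x y => sum_nonneg fun a _ => h.t0 a v y
  have pt : ∀ y, (if y ∈ (cn G S).filter (fun y => π y = i) then min (P v) (P y) else 0) +
      (if y ∈ good G S p i then u else 0) + (if y ∈ good G S p j then s else 0) ≤
      w v y + (if ¬ G.Adj v y then u else 0) + (if y ∈ (cn G S)ᶜ then mc w t S y else 0) +
        (if 0 < u then θ i y else 0) + (if 0 < s then θ j y else 0) := by
    intro y
    have w0 := h.w0 v y
    have n1 : (0 : ℝ) ≤ if ¬ G.Adj v y then u else 0 := by split_ifs <;> linarith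
    have n2 : (0 : ℝ) ≤ if y ∈ (cn G S)ᶜ then mc w t S y else 0 := by
      split_ifs
      · exact h.mc_nonneg S y
      · exact le_rfl
    have n3 : (0 : ℝ) ≤ if 0 < u then θ i y else 0 := by
      split_ifs
      · exact θ0 i y
      · exact le_rfl
    have n4 : (0 : ℝ) ≤ if 0 < s then θ j y else 0 := by
      split_ifs
      · exact θ0 j y
      · exact le_rfl
    by_cases c1 : y ∈ (cn G S).filter (fun y => π y = i)
    · obtain ⟨yT, yπ⟩ := mem_filter.1 c1
      have g1 : ∀ x, y ∉ good G S p x := fun x c => mem_compl.1 (mem_filter.1 c).1 yT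
      rw [if_pos c1, if_neg (g1 i), if_neg (g1 j)]
      have m1 := min_le_left (P v) (P y)
      have m2 := min_le_right (P v) (P y)
      by_cases adj : G.Adj v y
      · by_cases pos : 0 < min (P v) (P y)
        · have up : 0 < u := by linarith
          rw [if_pos up] at n3 ⊢
          have sw := h.swap hcl I.cl hi vS (fun x hx _ => mem_cn.1 yT x hx) adj
          have q1 : P v = ω - 2 * mc w t (S.erase i) v := by
            have := hP v
            rcases le_total (ω - 2 * mc w t (S.erase (π v)) v) 0 with c | c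
            · rw [max_eq_right c] at this
              linarith
            · rw [max_eq_left c] at this
              exact this
          have q2 : P y = ω - 2 * mc w t (S.erase i) y := by
            have := hP y
            rw [yπ] at this
            rcases le_total (ω - 2 * mc w t (S.erase i) y) 0 with c | c
            · rw [max_eq_right c] at this
              linarith
            · rw [max_eq_left c] at this
              exact this
          have : θ i y = ∑ a ∈ S.erase i, t a v y := rfl
          linarith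
        · linarith
      · rw [if_pos adj]
        linarith
    · rw [if_neg c1]
      by_cases c2 : y ∈ good G S p i
      · obtain ⟨yR, yp, ya⟩ := mem_filter.1 c2
        have c3 : y ∉ good G S p j := fun c => hij ((mem_filter.1 c).2.1.symm.trans yp)
        rw [if_pos c2, if_neg c3]
        by_cases adj : G.Adj v y
        · by_cases up : 0 < u
          · rw [if_pos up, if_pos yR]
            have sw := h.swap hcl I.cl hi vS ya adj
            have q1 : u = ω - mc w t (S.erase i) v := by
              rcases le_total (ω - mc w t (S.erase i) v) 0 with c | c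
              · rw [max_eq_right c] at hu
                linarith
              · exact hu.trans (max_eq_left c)
            have := h.mc_mono (erase_subset i S) y
            have : θ i y = ∑ a ∈ S.erase i, t a v y := rfl
            linarith
          · linarith
        · rw [if_pos adj]
          linarith
      · rw [if_neg c2]
        by_cases c3 : y ∈ good G S p j
        · obtain ⟨yR, yp, ya⟩ := mem_filter.1 c3
          rw [if_pos c3]
          by_cases adj : G.Adj v y
          · by_cases up : 0 < s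
            · rw [if_pos up, if_pos yR]
              have sw := h.swap hcl I.cl hj vS ya adj
              have q1 : s = w j v - (mc w t S v - ω) := by
                rcases le_total (w j v - (mc w t S v - ω)) 0 with c | c
                · rw [max_eq_right c] at hs
                  linarith
                · exact hs.trans (max_eq_left c)
              have := h.mc_mono (erase_subset j S) y
              have : θ j y = ∑ a ∈ S.erase j, t a v y := rfl
              linarith
            · linarith
          · rw [if_pos adj]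
            linarith
        · rw [if_neg c3]
          linarith
  have sm := sum_le_sum fun y (_ : y ∈ (univ : Finset V)) => pt y
  simp only [sum_add_distrib, sum_ite_mem, univ_inter, sum_const, nsmul_eq_mul] at sm
  have b1 : ∑ y, (if ¬ G.Adj v y then u else 0) ≤ H * u := by
    rw [← sum_filter, sum_const, nsmul_eq_mul]
    exact mul_le_mul_of_nonneg_right (hH v) u0
  have b2 : ∑ y, (if 0 < u then θ i y else 0) ≤ ρ := by
    split_ifs with up
    · have a := h.sum_theta (S.erase i) v
      have : mc w t (S.erase i) v ≤ 1 := by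
        rcases le_total (ω - mc w t (S.erase i) v) 0 with c | c
        · rw [max_eq_right c] at hu
          linarith
        · linarith
      have := mul_le_mul_of_nonneg_left this h.r0
      have e : ∑ y, θ i y = ∑ y, ∑ a ∈ S.erase i, t a v y := rfl
      linarith
    · simpa using h.r0
  have b3 : ∑ y, (if 0 < s then θ j y else 0) ≤ ρ := by
    split_ifs with up
    · have a := h.sum_theta (S.erase j) v
      have : mc w t (S.erase j) v ≤ 1 := by
        rcases le_total (w j v - (mc w t S v - ω)) 0 with c | c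
        · rw [max_eq_right c] at hs
          linarith
        · linarith
      have := mul_le_mul_of_nonneg_left this h.r0
      have e : ∑ y, θ j y = ∑ y, ∑ a ∈ S.erase j, t a v y := rfl
      linarith
    · simpa using h.r0
  have gi := good_le hH I i
  have gj := good_le hH I j
  have b4 : (H - (good G S p j).card) + (H - (good G S p i).card) ≤
      2 * (k * H - ((cn G S)ᶜ).card) := by
    refine le_trans ?_ (good_sum hH I)
    have e1 := sum_le_sum_of_subset_of_nonneg
      (show ({j, i} : Finset V) ⊆ S by simp [insert_subset_iff, hi, hj])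
      (f := fun x => H - ((good G S p x).card : ℝ)) fun x _ _ => sub_nonneg.2 (good_le hH I x)
    rwa [sum_pair hij] at e1
  have b5 := mul_le_mul_of_nonneg_right uω (sub_nonneg.2 gi)
  have b6 := mul_le_mul_of_nonneg_right (su.trans uω) (sub_nonneg.2 gj)
  have b7 := mul_le_mul_of_nonneg_left b4 ω0
  have b8 : H * (w j v - (mc w t S v - ω)) ≤ H * s :=
    mul_le_mul_of_nonneg_left (le_max_left _ _) H0
  nlinarith

end Pool.Agent.Lib.YL60
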