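import Pool.Agent.Lib.YL60.Base

namespace Pool.Agent.Lib.YL60

open Finset
open scoped Classical

variable {V : Type} [Fintype V] {w : V → V → ℝ} {t : V → V → V → ℝ} {ρ : ℝ}
  {G : SimpleGraph V} {ν H : ℝ} {k : ℕ} {S : Finset V} {g : V → ℝ} {p : V → V}

lemma min_sum (F : Finset V) (P : V → ℝ) {ω : ℝ} (m : ℝ) (ω0 : 0 < ω) (h0 : ∀ y, 0 ≤ P y)
    (h1 : ∀ y, P y ≤ ω) :
    2 * m * ∑ v ∈ F, P v - ω * m ^ 2 ≤ ∑ v ∈ F, ∑ y ∈ F, min (P v) (P y) := by
  have a : (∑ v ∈ F, P v) * (∑ v ∈ F, P v) ≤ ω * ∑ v ∈ F, ∑ y ∈ F, min (P v) (P y) := by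
    rw [sum_mul_sum, mul_sum]
    refine sum_le_sum fun v _ => ?_
    rw [mul_sum]
    refine sum_le_sum fun y _ => ?_
    rcases le_total (P v) (P y) with c | c
    · rw [min_eq_left c]
      nlinarith [h0 v, h1 y]
    · rw [min_eq_right c]
      nlinarith [h0 y, h1 v]
  refine le_of_mul_le_mul_left ?_ ω0
  nlinarith [sq_nonneg (∑ v ∈ F, P v - ω * m)]

/-- The contribution of the common neighbourhood. -/
lemma Dat.tpart (h : Dat w t ρ) (hk : 2 ≤ k) (H0 : 0 ≤ H)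
    (hH : ∀ x, ((univ.filter fun y => ¬ G.Adj x y).card : ℝ) ≤ H)
    (hcl : ∀ K, G.IsNClique (k + 1) K → 1 ≤ cost w t K) (I : Inv G w t ν k S g p)
    {ω m T1 E aR aT DT : ℝ} (hω : ω = 1 - cost w t S) (ω0 : 0 < ω) (m0 : 0 ≤ m)
    (hm : 4 * (m * k) ≤ H) (hT : T1 = (cn G S).card)
    (hE : E = k * H - ((cn G S)ᶜ).card) (haR : aR = ∑ y ∈ (cn G S)ᶜ, mc w t S y)
    (haT : aT = ∑ y ∈ cn G S, mc w t S y) (hDT : DT = ∑ y ∈ cn G S, ∑ z, w y z) :
    ω * (2 * m * T1 - k * m ^ 2) - H * (ρ * cost w t S) - T1 * (2 * ω * E + aR + 2 * ρ) ≤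
      H * (aT - ω * T1) + DT := by
  have k2 : (2 : ℝ) ≤ k := by exact_mod_cast hk
  have ex : ∀ v, ∃ i j, i ∈ S ∧ j ∈ S ∧ j ≠ i ∧ w j v ≤ w i v ∧
      ∀ a ∈ S.erase i, w a v ≤ w j v := by
    intro v
    obtain ⟨i, hi, mi⟩ := exists_max_image S (fun a => w a v)
      (card_pos.1 (by rw [I.cl.2]; omega))
    obtain ⟨j, hj, mj⟩ := exists_max_image (S.erase i) (fun a => w a v)
      (card_pos.1 (by rw [card_erase_of_mem hi, I.cl.2]; omega))
    exact ⟨i, j, hi, mem_of_mem_erase hj, ne_of_mem_erase hj, mi j (mem_of_mem_erase hj), mj⟩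
  choose π σ hπ hσ hne hle hmax using ex
  set P : V → ℝ := fun y => max (ω - 2 * mc w t (S.erase (π y)) y) 0 with hP
  have P0 : ∀ y, 0 ≤ P y := fun y => le_max_right _ _
  have P1 : ∀ y, P y ≤ ω := fun y =>
    max_le (by have := h.mc_nonneg (S.erase (π y)) y; linarith) ω0.le
  have a1 := sum_le_sum fun v (hv : v ∈ cn G S) =>
    h.vertex H0 hH hcl I hω ω0.le π hv (hπ v) (hσ v) (hne v) (hle v) (P := P) fun _ => rfl
  have a2 : 2 * m * ∑ v ∈ cn G S, P v - k * (ω * m ^ 2) ≤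
      ∑ v ∈ cn G S, ∑ y ∈ (cn G S).filter (fun y => π y = π v), min (P v) (P y) := by
    rw [← sum_fiberwise_of_maps_to (s := cn G S) (t := S) (g := π) (fun v _ => hπ v),
      ← sum_fiberwise_of_maps_to (s := cn G S) (t := S) (g := π) (fun v _ => hπ v)
        (f := fun v => ∑ y ∈ (cn G S).filter (fun y => π y = π v), min (P v) (P y)),
      ← I.cl.2, ← nsmul_eq_mul, ← sum_const, mul_sum, ← sum_sub_distrib]
    refine sum_le_sum fun i _ => (min_sum _ P m ω0 P0 P1).trans (le_of_eq ?_)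
    exact sum_congr rfl fun v hv => by rw [(mem_filter.1 hv).2]
  have a3 : ∀ v, 2 * m * ω - H * tau t S v ≤ 2 * m * P v + H * w (σ v) v := by
    intro v
    have b1 : ω - 2 * mc w t (S.erase (π v)) v ≤ P v := le_max_left _ _
    have b2 : ∑ a ∈ S.erase (π v), w a v ≤ k * w (σ v) v := by
      refine (sum_le_card_nsmul _ _ _ (hmax v)).trans ?_
      rw [nsmul_eq_mul]
      refine mul_le_mul_of_nonneg_right ?_ (h.w0 _ _)
      rw [← I.cl.2]
      exact_mod_cast card_erase_le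
    have b3 := h.tau_mono (erase_subset (π v) S) v
    have b4 := h.tau_nonneg S v
    have b5 := h.w0 (σ v) v
    have b6 : mc w t (S.erase (π v)) v ≤ k * w (σ v) v + tau t S v := by
      unfold mc
      linarith
    have b7 := mul_le_mul_of_nonneg_left b1 m0
    have b8 := mul_le_mul_of_nonneg_left b6 m0
    have b9 := mul_le_mul_of_nonneg_right hm b5
    have b10 : 4 * m ≤ H := by nlinarith
    have b11 := mul_le_mul_of_nonneg_right b10 b4
    nlinarith
  have a4 := sum_le_sum fun v (_ : v ∈ cn G S) => a3 v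
  have a5 : ∑ v ∈ cn G S, tau t S v ≤ ρ * cost w t S :=
    (sum_le_sum_of_subset_of_nonneg (subset_univ _) fun y _ _ => h.tau_nonneg S y).trans
      (h.sum_tau S)
  have a6 := mul_le_mul_of_nonneg_left a5 H0
  simp only [sum_add_distrib, sum_sub_distrib, sum_const, nsmul_eq_mul, ← mul_sum] at a1 a4
  rw [← hT, ← hE, ← haR, ← haT, ← hDT] at a1
  rw [← hT] at a4
  nlinarith

lemma sizes (S : Finset V) :
    ((cn G S).card : ℝ) + ((cn G S)ᶜ).card = Fintype.card V := by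
  exact_mod_cast card_add_card_compl (cn G S)

/-- Exact dual bound near the Turan threshold. -/
theorem Dat.core_exact (h : Dat w t ρ) (hk : 2 ≤ k)
    (hH : ∀ x, ((univ.filter fun y => ¬ G.Adj x y).card : ℝ) ≤ H)
    (hcl : ∀ K, G.IsNClique (k + 1) K → 1 ≤ cost w t K) {m : ℝ} (m0 : 0 < m)
    (hn : (Fintype.card V : ℝ) = k * (H + m)) (hm : 4 * (m * k) ≤ H) (hρ : 10 * ρ ≤ H) :
    Fintype.card V * m - 2 * ρ * (k * m) ≤ ∑ y, ∑ z, w y z := by
  have k2 : (2 : ℝ) ≤ k := by exact_mod_cast hk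
  have mk : 0 < m * k := by positivity
  have H0 : 0 < H := by linarith
  have r0 := h.r0
  set ν := (k * m * (H + m)) / H + 2 * ρ with hν
  have ν0 : 0 ≤ ν := by positivity
  have Hν : H * ν = k * m * (H + m) + 2 * (H * ρ) := by
    rw [hν]
    field_simp
  have m8 : 8 * m ≤ H := by nlinarith
  have νH : ν + 2 * (k * m) ≤ H := by
    refine le_of_mul_le_mul_left ?_ H0
    have : k * m * (H + m) ≤ H / 4 * (H + H / 8) :=
      mul_le_mul (by linarith) (by linarith) (by positivity) (by positivity)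
    nlinarith
  obtain ⟨S, g, p, I⟩ := h.greedy G ν0 H0.le hH k (by rw [hn]; nlinarith)
  obtain ⟨e0, b⟩ := h.base H0.le hH I rfl rfl rfl rfl rfl rfl
  have sz := sizes (G := G) S
  have W0 := h.cost_nonneg S
  have aR0 : 0 ≤ ∑ y ∈ (cn G S)ᶜ, mc w t S y := sum_nonneg fun y _ => h.mc_nonneg S y
  have aT0 : 0 ≤ ∑ y ∈ cn G S, mc w t S y := sum_nonneg fun y _ => h.mc_nonneg S y
  have DT0 : 0 ≤ ∑ y ∈ cn G S, ∑ z, w y z := sum_nonneg fun y _ => sum_nonneg fun z _ => h.w0 y z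
  have aT1 : (1 - cost w t S) * (cn G S).card ≤ ∑ y ∈ cn G S, mc w t S y := by
    rw [mul_comm, ← nsmul_eq_mul]
    exact card_nsmul_le_sum _ _ _ fun y hy => h.mc_ge hcl I.cl hy
  have tp := fun ω0 : 0 < 1 - cost w t S =>
    h.tpart hk H0.le hH hcl I rfl ω0 m0.le hm rfl rfl rfl rfl rfl
  rw [← sum_add_sum_compl (cn G S), hn]
  generalize ∑ y ∈ (cn G S)ᶜ, mc w t S y = aR at *
  generalize ∑ y ∈ cn G S, mc w t S y = aT at *
  generalize ∑ y ∈ (cn G S)ᶜ, ∑ z, w y z = DR at *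
  generalize ∑ y ∈ cn G S, ∑ z, w y z = DT at *
  generalize cost w t S = W at *
  generalize ((cn G S).card : ℝ) = T1 at *
  obtain ⟨E, hE⟩ : ∃ E : ℝ, E = k * H - ((cn G S)ᶜ).card := ⟨_, rfl⟩
  rw [← hE] at e0 b tp
  have hT : T1 = k * m + E := by rw [hn] at sz; linarith
  clear I hH hcl hn sz hE h hν
  generalize (k : ℝ) = κ at *
  obtain ⟨T0, hT0⟩ : ∃ T0, T0 = κ * m := ⟨_, rfl⟩
  rw [← hT0] at hT νH Hν
  have T00 : 0 < T0 := by rw [hT0]; linarith
  have T10 : 0 < T1 := by linarith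
  have goal : T0 * (H + m) - 2 * ρ * T0 ≤ DT + DR := by
    refine le_of_mul_le_mul_left ?_ T10
    have c1 : T1 * (DT + DR) = T1 * DR + E * DT + T0 * DT := by rw [hT]; ring
    have c2 : T1 * (H * ν * W) = T1 * ((T0 * (H + m) + 2 * (H * ρ)) * W) := by rw [Hν]
    have c3 : 0 ≤ T1 * ((H - ν - T0) * aR) :=
      mul_nonneg T10.le (mul_nonneg (by linarith) aR0)
    have c4 : 0 ≤ T1 * (H * ρ * W) := by positivity
    rcases le_or_gt (1 - W) 0 with c | c
    · have d1 : 0 ≤ (T1 * H - E * ν) * aT := by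
        refine mul_nonneg ?_ aT0
        rw [hT]
        nlinarith
      have d2 : 0 ≤ T1 * (T0 * (H + m) * (W - 1)) := by
        have : 0 ≤ W - 1 := by linarith
        positivity
      have d3 : 0 ≤ T0 * DT := by positivity
      have d4 : 0 ≤ T1 * (ρ * T0) := by positivity
      have d5 : 0 ≤ T1 * (T0 * aR) := by positivity
      nlinarith
    · have d0 := mul_le_mul_of_nonneg_left (tp c) T00.le
      have d1 : 0 ≤ E * (H - ν) * (aT - (1 - W) * T1) :=
        mul_nonneg (mul_nonneg e0 (by linarith)) (by linarith)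
      have d2 : 0 ≤ T1 * ((1 - W) * (E * (H - ν - 2 * T0))) :=
        mul_nonneg T10.le (mul_nonneg c.le (mul_nonneg e0 (by linarith)))
      have d3 : 0 ≤ E * (H * ρ * W) := by positivity
      have d4 : 0 ≤ T0 * ((1 - W) * (m * E)) := by positivity
      have d5 : κ * m ^ 2 = T0 * m := by rw [hT0]; ring
      rw [d5] at d0
      subst hT
      nlinarith
  rw [hT0] at goal
  nlinarith

/-- First order dual bound. -/
theorem Dat.core_first (h : Dat w t ρ)
    (hH : ∀ x, ((univ.filter fun y => ¬ G.Adj x y).card : ℝ) ≤ H)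
    (hcl : ∀ K, G.IsNClique (k + 1) K → 1 ≤ cost w t K) {T0 : ℝ} (T00 : 0 < T0)
    (hn : (Fintype.card V : ℝ) = k * H + T0) (hm : T0 ≤ H) (hρ : ρ ≤ H) :
    H * T0 - H * ρ ≤ ∑ y, ∑ z, w y z := by
  have H0 : 0 < H := by linarith
  have r0 := h.r0
  obtain ⟨S, g, p, I⟩ := h.greedy G H0.le H0.le hH k (by rw [hn]; linarith)
  obtain ⟨e0, b⟩ := h.base H0.le hH I rfl rfl rfl rfl rfl rfl
  have sz := sizes (G := G) S
  have W0 := h.cost_nonneg S
  have aT0 : 0 ≤ ∑ y ∈ cn G S, mc w t S y := sum_nonneg fun y _ => h.mc_nonneg S y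
  have DT0 : 0 ≤ ∑ y ∈ cn G S, ∑ z, w y z := sum_nonneg fun y _ => sum_nonneg fun z _ => h.w0 y z
  have aT1 : (1 - cost w t S) * (cn G S).card ≤ ∑ y ∈ cn G S, mc w t S y := by
    rw [mul_comm, ← nsmul_eq_mul]
    exact card_nsmul_le_sum _ _ _ fun y hy => h.mc_ge hcl I.cl hy
  rw [← sum_add_sum_compl (cn G S)]
  generalize ∑ y ∈ (cn G S)ᶜ, mc w t S y = aR at *
  generalize ∑ y ∈ cn G S, mc w t S y = aT at *
  generalize ∑ y ∈ (cn G S)ᶜ, ∑ z, w y z = DR at *
  generalize ∑ y ∈ cn G S, ∑ z, w y z = DT at *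
  generalize cost w t S = W at *
  generalize ((cn G S).card : ℝ) = T1 at *
  obtain ⟨E, hE⟩ : ∃ E : ℝ, E = k * H - ((cn G S)ᶜ).card := ⟨_, rfl⟩
  rw [← hE] at e0 b
  have hT : T1 = T0 + E := by rw [hn] at sz; linarith
  clear I hH hcl hn sz hE h
  have T10 : 0 < T1 := by linarith
  refine le_of_mul_le_mul_left ?_ T10
  have d3 : 0 ≤ T0 * DT := by positivity
  rcases le_total W 1 with c | c
  · have d1 : 0 ≤ T0 * H * (aT - (1 - W) * T1) := mul_nonneg (by positivity) (by linarith)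
    have d2 : 0 ≤ T1 * (H * ((H - T0) * W)) := by
      have : 0 ≤ H - T0 := by linarith
      positivity
    have d4 : 0 ≤ T1 * (H * (ρ * (1 - W))) := by
      have : 0 ≤ 1 - W := by linarith
      positivity
    subst hT
    nlinarith
  · have d1 : 0 ≤ T0 * H * aT := by positivity
    have d2 : 0 ≤ T1 * (H * ((H - ρ) * (W - 1))) := by
      have : 0 ≤ H - ρ := by linarith
      have : 0 ≤ W - 1 := by linarith
      positivity
    have d4 : 0 ≤ T1 * (H * (H - T0)) := by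
      have : 0 ≤ H - T0 := by linarith
      positivity
    subst hT
    nlinarith

end Pool.Agent.Lib.YL60
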