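import Mathlib

namespace Pool.Agent.Lib.YL60

open Finset
open scoped Classical

variable {V : Type} [Fintype V]

/-- Weight of a vertex set: pair weights plus triple weights. -/
noncomputable def cost (w : V → V → ℝ) (t : V → V → V → ℝ) (K : Finset V) : ℝ :=
  (∑ a ∈ K, ∑ b ∈ K, w a b) / 2 + (∑ a ∈ K, ∑ b ∈ K, ∑ c ∈ K, t a b c) / 6

/-- Triple part of the marginal weight. -/
noncomputable def tau (t : V → V → V → ℝ) (K : Finset V) (y : V) : ℝ :=
  (∑ a ∈ K, ∑ b ∈ K, t a b y) / 2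

/-- Marginal weight of adding `y` to `K`. -/
noncomputable def mc (w : V → V → ℝ) (t : V → V → V → ℝ) (K : Finset V) (y : V) : ℝ :=
  ∑ a ∈ K, w a y + tau t K y

/-- Symmetric nonnegative weights with small triple sums. -/
structure Dat (w : V → V → ℝ) (t : V → V → V → ℝ) (ρ : ℝ) : Prop where
  w0 : ∀ a b, 0 ≤ w a b
  ws : ∀ a b, w a b = w b a
  wd : ∀ a, w a a = 0
  t0 : ∀ a b c, 0 ≤ t a b c
  t12 : ∀ a b c, t a b c = t b a c
  t23 : ∀ a b c, t a b c = t a c b
  td : ∀ a c, t a a c = 0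
  r0 : 0 ≤ ρ
  tr : ∀ a b, ∑ c, t a b c ≤ ρ * w a b

variable {w : V → V → ℝ} {t : V → V → V → ℝ} {ρ : ℝ}

lemma Dat.tau_nonneg (h : Dat w t ρ) (K : Finset V) (y : V) : 0 ≤ tau t K y :=
  div_nonneg (sum_nonneg fun a _ => sum_nonneg fun b _ => h.t0 a b y) (by norm_num)

lemma Dat.mc_nonneg (h : Dat w t ρ) (K : Finset V) (y : V) : 0 ≤ mc w t K y :=
  add_nonneg (sum_nonneg fun a _ => h.w0 a y) (h.tau_nonneg K y)

lemma Dat.tau_mono (h : Dat w t ρ) {K K' : Finset V} (hK : K ⊆ K') (y : V) :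
    tau t K y ≤ tau t K' y := by
  unfold tau
  have : ∑ a ∈ K, ∑ b ∈ K, t a b y ≤ ∑ a ∈ K', ∑ b ∈ K', t a b y :=
    (sum_le_sum fun a _ => sum_le_sum_of_subset_of_nonneg hK fun b _ _ => h.t0 a b y).trans
      (sum_le_sum_of_subset_of_nonneg hK fun a _ _ => sum_nonneg fun b _ => h.t0 a b y)
  linarith

lemma Dat.mc_mono (h : Dat w t ρ) {K K' : Finset V} (hK : K ⊆ K') (y : V) :
    mc w t K y ≤ mc w t K' y :=
  add_le_add (sum_le_sum_of_subset_of_nonneg hK fun a _ _ => h.w0 a y) (h.tau_mono hK y)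

lemma Dat.mc_insert (h : Dat w t ρ) {K : Finset V} {v : V} (hv : v ∉ K) (y : V) :
    mc w t (insert v K) y = mc w t K y + w v y + ∑ a ∈ K, t a v y := by
  unfold mc tau
  simp only [sum_insert hv, sum_add_distrib, h.td]
  have : ∑ b ∈ K, t v b y = ∑ a ∈ K, t a v y := sum_congr rfl fun a _ => h.t12 v a y
  rw [this]
  ring

lemma Dat.cost_insert (h : Dat w t ρ) {K : Finset V} {y : V} (hy : y ∉ K) :
    cost w t (insert y K) = cost w t K + mc w t K y := by
  unfold cost mc tau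
  have e1 : ∀ a, t y a y = 0 := fun a => by rw [h.t23, h.td]
  have e2 : ∀ a, t a y y = 0 := fun a => by rw [h.t12, e1]
  simp only [sum_insert hy, sum_add_distrib, h.td, h.wd, e1, e2, sum_const_zero]
  have a1 : ∑ b ∈ K, w y b = ∑ a ∈ K, w a y := sum_congr rfl fun a _ => h.ws y a
  have a2 : ∑ b ∈ K, ∑ c ∈ K, t y b c = ∑ a ∈ K, ∑ b ∈ K, t a b y :=
    sum_congr rfl fun a _ => sum_congr rfl fun b _ => by rw [h.t12, h.t23]
  have a3 : ∑ a ∈ K, ∑ c ∈ K, t a y c = ∑ a ∈ K, ∑ b ∈ K, t a b y :=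
    sum_congr rfl fun a _ => sum_congr rfl fun b _ => h.t23 a y b
  rw [a1, a2, a3]
  ring

lemma Dat.cost_nonneg (h : Dat w t ρ) (K : Finset V) : 0 ≤ cost w t K :=
  add_nonneg (div_nonneg (sum_nonneg fun a _ => sum_nonneg fun b _ => h.w0 a b) (by norm_num))
    (div_nonneg (sum_nonneg fun a _ => sum_nonneg fun b _ => sum_nonneg fun c _ => h.t0 a b c)
      (by norm_num))

lemma Dat.sum_tau (h : Dat w t ρ) (K : Finset V) : ∑ y, tau t K y ≤ ρ * cost w t K := by
  unfold tau cost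
  rw [← sum_div, sum_comm]
  have a1 : ∑ a ∈ K, ∑ y, ∑ b ∈ K, t a b y ≤ ρ * ∑ a ∈ K, ∑ b ∈ K, w a b := by
    rw [mul_sum]
    refine sum_le_sum fun a _ => ?_
    rw [sum_comm, mul_sum]
    exact sum_le_sum fun b _ => h.tr a b
  have a2 : 0 ≤ ∑ a ∈ K, ∑ b ∈ K, ∑ c ∈ K, t a b c :=
    sum_nonneg fun a _ => sum_nonneg fun b _ => sum_nonneg fun c _ => h.t0 a b c
  have := mul_nonneg h.r0 a2
  nlinarith

lemma Dat.sum_theta (h : Dat w t ρ) (K : Finset V) (v : V) :
    ∑ y, ∑ a ∈ K, t a v y ≤ ρ * mc w t K v := by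
  rw [sum_comm]
  have a1 : ∑ a ∈ K, ∑ y, t a v y ≤ ρ * ∑ a ∈ K, w a v := by
    rw [mul_sum]
    exact sum_le_sum fun a _ => h.tr a v
  have := mul_nonneg h.r0 (h.tau_nonneg K v)
  unfold mc
  linarith

/-- Common neighbourhood. -/
noncomputable def cn (G : SimpleGraph V) (S : Finset V) : Finset V :=
  univ.filter fun y => ∀ x ∈ S, G.Adj x y

lemma mem_cn {G : SimpleGraph V} {S : Finset V} {y : V} : y ∈ cn G S ↔ ∀ x ∈ S, G.Adj x y := by
  simp [cn]

lemma clique_insert {G : SimpleGraph V} {j : ℕ} {S : Finset V} (hS : G.IsNClique j S) {y : V}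
    (hy : ∀ x ∈ S, G.Adj x y) : y ∉ S ∧ G.IsNClique (j + 1) (insert y S) :=
  ⟨fun c => (hy y c).ne rfl, hS.insert fun x hx => (hy x hx).symm⟩

/-- The one-swap clique inequality. -/
lemma Dat.swap (h : Dat w t ρ) {G : SimpleGraph V} {k : ℕ}
    (hcl : ∀ K, G.IsNClique (k + 1) K → 1 ≤ cost w t K) {S : Finset V} (hS : G.IsNClique k S)
    {i v y : V} (hi : i ∈ S) (hv : ∀ x ∈ S, G.Adj x v) (hy : ∀ x ∈ S, x ≠ i → G.Adj x y)
    (hvy : G.Adj v y) :
    1 - cost w t S - mc w t (S.erase i) v - mc w t (S.erase i) y ≤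
      w v y + ∑ a ∈ S.erase i, t a v y := by
  obtain ⟨j, rfl⟩ : ∃ j, k = j + 1 := ⟨k - 1, by
    have := card_pos.2 ⟨i, hi⟩
    rw [hS.2] at this
    omega⟩
  have h0 : G.IsNClique j (S.erase i) :=
    ⟨hS.1.subset (coe_subset.2 (erase_subset _ _)), by rw [card_erase_of_mem hi, hS.2]; rfl⟩
  obtain ⟨n1, h1⟩ := clique_insert h0 (y := v) fun x hx => hv x (mem_of_mem_erase hx)
  obtain ⟨n2, h2⟩ := clique_insert h1 (y := y) fun x hx => by
    rcases mem_insert.1 hx with rfl | hx
    · exact hvy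
    · exact hy x (mem_of_mem_erase hx) (ne_of_mem_erase hx)
  have a := hcl _ h2
  rw [h.cost_insert n2, h.cost_insert n1, h.mc_insert n1] at a
  have b := h.cost_insert (notMem_erase i S)
  rw [insert_erase hi] at b
  have c := h.mc_nonneg (S.erase i) i
  linarith

/-- State of the greedy choice. -/
structure Inv (G : SimpleGraph V) (w : V → V → ℝ) (t : V → V → V → ℝ) (ν : ℝ) (j : ℕ)
    (S : Finset V) (g : V → ℝ) (p : V → V) : Prop where
  cl : G.IsNClique j S
  g0 : ∀ x, 0 ≤ g x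
  gs : ∑ x ∈ S, g x = cost w t S
  out : ∀ y, y ∉ cn G S → p y ∈ S ∧ ¬ G.Adj (p y) y ∧
    ∑ z, w (p y) z + ν * g (p y) ≤ ∑ z, w y z + ν * mc w t S y
  inn : ∀ y ∈ cn G S, ∀ x ∈ S, ∑ z, w x z + ν * g x ≤ ∑ z, w y z + ν * mc w t S y

lemma card_out {G : SimpleGraph V} {H : ℝ}
    (hH : ∀ x, ((univ.filter fun y => ¬ G.Adj x y).card : ℝ) ≤ H) (S : Finset V) :
    (Fintype.card V : ℝ) ≤ (cn G S).card + S.card * H := by
  have a : (univ : Finset V) ⊆ cn G S ∪ S.biUnion fun x => univ.filter fun y => ¬ G.Adj x y := by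
    intro y _
    by_cases hy : y ∈ cn G S
    · exact mem_union_left _ hy
    · rw [mem_cn] at hy
      push Not at hy
      obtain ⟨x, hx, hxy⟩ := hy
      exact mem_union_right _ (mem_biUnion.2 ⟨x, hx, by simpa using hxy⟩)
  have b := (card_le_card a).trans ((card_union_le _ _).trans
    (Nat.add_le_add_left card_biUnion_le _))
  rw [card_univ] at b
  have c : (Fintype.card V : ℝ) ≤ (cn G S).card +
      ∑ x ∈ S, ((univ.filter fun y => ¬ G.Adj x y).card : ℝ) := by exact_mod_cast b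
  have d := sum_le_card_nsmul S _ H fun x _ => hH x
  rw [nsmul_eq_mul] at d
  linarith

lemma Dat.greedy (h : Dat w t ρ) (G : SimpleGraph V) {ν H : ℝ} (hν : 0 ≤ ν) (H0 : 0 ≤ H)
    (hH : ∀ x, ((univ.filter fun y => ¬ G.Adj x y).card : ℝ) ≤ H) :
    ∀ j : ℕ, (j : ℝ) * H < Fintype.card V → ∃ S g p, Inv G w t ν j S g p := by
  intro j
  induction j with
  | zero =>
    intro _
    exact ⟨∅, fun _ => 0, id, by simp, fun _ => le_rfl, by simp [cost],
      fun y hy => absurd (mem_cn.2 (by simp)) hy, by simp⟩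
  | succ j ih =>
    intro hj
    push_cast at hj
    obtain ⟨S, g, p, I⟩ := ih (by linarith)
    have ne : (cn G S).Nonempty := by
      have a := card_out hH S
      rw [I.cl.2] at a
      have : (0 : ℝ) < (cn G S).card := by linarith
      exact card_pos.1 (by exact_mod_cast this)
    obtain ⟨x, hx, hmin⟩ := exists_min_image (cn G S)
      (fun y => ∑ z, w y z + ν * mc w t S y) ne
    obtain ⟨nx, hcl⟩ := clique_insert I.cl (mem_cn.1 hx)
    have mono : ∀ y, ν * mc w t S y ≤ ν * mc w t (insert x S) y := fun y =>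
      mul_le_mul_of_nonneg_left (h.mc_mono (subset_insert _ _) y) hν
    have gS : ∀ a ∈ S, Function.update g x (mc w t S x) a = g a := fun a ha =>
      Function.update_of_ne (by rintro rfl; exact nx ha) _ _
    refine ⟨insert x S, Function.update g x (mc w t S x),
      fun y => if y ∈ cn G S then x else p y, hcl, fun a => ?_, ?_, fun y hy => ?_,
      fun y hy a ha => ?_⟩
    · by_cases e : a = x
      · rw [e, Function.update_self]
        exact h.mc_nonneg S x
      · rw [Function.update_of_ne e]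
        exact I.g0 a
    · rw [sum_insert nx, Function.update_self, sum_congr rfl gS, I.gs, h.cost_insert nx]
      ring
    · by_cases c : y ∈ cn G S
      · simp only [c, if_true, Function.update_self]
        refine ⟨mem_insert_self _ _, fun e => hy (mem_cn.2 fun a ha => ?_), ?_⟩
        · rcases mem_insert.1 ha with rfl | ha
          · exact e
          · exact mem_cn.1 c a ha
        · have := hmin y c
          have := mono y
          linarith
      · simp only [c, if_false]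
        obtain ⟨a1, a2, a3⟩ := I.out y c
        rw [gS _ a1]
        exact ⟨mem_insert_of_mem a1, a2, by have := mono y; linarith⟩
    · have c : y ∈ cn G S := mem_cn.2 fun b hb => mem_cn.1 hy b (mem_insert_of_mem hb)
      have := mono y
      rcases mem_insert.1 ha with rfl | ha
      · rw [Function.update_self]
        have := hmin y c
        linarith
      · rw [gS a ha]
        have := I.inn y c a ha
        linarith

end Pool.Agent.Lib.YL60
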