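import Pool.Agent.Lib.YL60.Parts

namespace Pool.Agent.Lib.YL60

open Finset
open scoped Classical

variable {V : Type} [Fintype V] {w : V → V → ℝ} {t : V → V → V → ℝ} {ρ : ℝ}
  {G : SimpleGraph V} {ν H : ℝ} {k : ℕ} {S : Finset V} {g : V → ℝ} {p : V → V}

lemma min_le_swap {ω a b : ℝ} :
    min (max (ω - 2 * a) 0) (max (ω - 2 * b) 0) ≤ max (ω - a - b) 0 := by
  have m1 := min_le_left (max (ω - 2 * a) 0) (max (ω - 2 * b) 0)
  have m2 := min_le_right (max (ω - 2 * a) 0) (max (ω - 2 * b) 0)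
  rcases le_total (ω - 2 * a) 0 with c | c
  · rw [max_eq_right c] at m1 ⊢
    exact le_max_of_le_right m1
  · rcases le_total (ω - 2 * b) 0 with d | d
    · rw [max_eq_right d] at m2 ⊢
      exact le_max_of_le_right m2
    · rw [max_eq_left c] at m1 m2 ⊢
      rw [max_eq_left d] at m1 m2 ⊢
      exact le_max_of_le_left (by linarith)

lemma def_le (hH : ∀ x, ((univ.filter fun y => ¬ G.Adj x y).card : ℝ) ≤ H)
    (I : Inv G w t ν k S g p) {i : V} (hi : i ∈ S) :
    H - (good G S p i).card ≤ 2 * (k * H - ((cn G S)ᶜ).card) :=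
  (single_le_sum (f := fun x => H - ((good G S p x).card : ℝ))
    (fun x _ => sub_nonneg.2 (good_le hH I x)) hi).trans (good_sum hH I)

/-- First inner bound. -/
lemma Dat.i1 (h : Dat w t ρ)
    (hH : ∀ x, ((univ.filter fun y => ¬ G.Adj x y).card : ℝ) ≤ H)
    (hcl : ∀ K, G.IsNClique (k + 1) K → 1 ≤ cost w t K) (I : Inv G w t ν k S g p)
    {ω m : ℝ} (hω : ω = 1 - cost w t S) (ω0 : 0 < ω) (m0 : 0 ≤ m) {π : V → V}
    (hπ : ∀ v, π v ∈ S) {T1 E aR Q In : ℝ} (hT : T1 = (cn G S).card)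
    (hE : E = k * H - ((cn G S)ᶜ).card) (haR : aR = ∑ y ∈ (cn G S)ᶜ, mc w t S y)
    (hQ : Q = ∑ v ∈ cn G S, max (ω - 2 * mc w t (S.erase (π v)) v) 0)
    (hIn : In = ∑ v ∈ cn G S, ∑ z ∈ part G S p π (π v), w v z) :
    2 * m * Q - k * (ω * m ^ 2) - 4 * m * (aR + ω * E) - T1 * ρ ≤ In := by
  have r0 := h.r0
  have pl : ∀ i ∈ S, 2 * m * (∑ v ∈ tf G S π i, max (ω - 2 * mc w t (S.erase (π v)) v) 0) -
      ω * m ^ 2 - 2 * m * ω * (H - (good G S p i).card) -
      4 * m * (∑ y ∈ good G S p i, mc w t S y) - ρ * (∑ z ∈ tf G S π i, (1 : ℝ)) ≤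
      ∑ v ∈ tf G S π i, ∑ z ∈ part G S p π (π v), w v z := by
    intro i hi
    obtain ⟨q, hq⟩ : ∃ q : V → ℝ, ∀ z, q z = max (ω - 2 * mc w t (S.erase i) z) 0 :=
      ⟨_, fun _ => rfl⟩
    have q0 : ∀ z, 0 ≤ q z := fun z => hq z ▸ le_max_right _ _
    have q1 : ∀ z, q z ≤ ω := fun z => hq z ▸
      max_le (by have := h.mc_nonneg (S.erase i) z; linarith) ω0.le
    have e0 : ∑ v ∈ tf G S π i, max (ω - 2 * mc w t (S.erase (π v)) v) 0 =
        ∑ v ∈ tf G S π i, q v := sum_congr rfl fun v hv => by rw [(mem_filter.1 hv).2, hq]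
    rw [e0]
    obtain ⟨Qi, hQi⟩ : ∃ x, x = ∑ v ∈ tf G S π i, q v := ⟨_, rfl⟩
    obtain ⟨al, hal⟩ : ∃ x, x = ∑ y ∈ good G S p i, mc w t S y := ⟨_, rfl⟩
    obtain ⟨c, hc⟩ : ∃ c : ℝ, c = (good G S p i).card := ⟨_, rfl⟩
    have a0 : 0 ≤ al := hal ▸ sum_nonneg fun v _ => h.mc_nonneg _ v
    have c1 : c ≤ H := hc ▸ good_le hH I i
    obtain ⟨D, hD⟩ : ∃ D, ω * D = Qi - ω * (H - c) - 2 * al :=
      ⟨(Qi - ω * (H - c) - 2 * al) / ω, by field_simp⟩
    have e2 : ω * c - 2 * al ≤ ∑ z ∈ good G S p i, q z := by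
      rw [hc, hal, mul_comm, ← nsmul_eq_mul, ← sum_const, mul_sum, ← sum_sub_distrib]
      exact sum_le_sum fun z _ => by
        have := h.mc_mono (erase_subset i S) z
        rw [hq]
        exact le_max_of_le_left (by linarith)
    have pt : ∀ v ∈ tf G S π i, q v * D - ρ * 1 ≤ ∑ z ∈ part G S p π (π v), w v z := by
      intro v hv
      obtain ⟨vT, vπ⟩ := mem_filter.1 hv
      rw [vπ]
      have fm : ∀ z, q v * q z / ω ≤ min (q v) (q z) := fun z => by
        rw [div_le_iff₀ ω0]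
        rcases le_total (q v) (q z) with c | c
        · rw [min_eq_left c]
          exact mul_le_mul_of_nonneg_left (q1 z) (q0 v)
        · rw [min_eq_right c, mul_comm]
          exact mul_le_mul_of_nonneg_left (q1 v) (q0 z)
      have a := h.inner hH hcl I.cl hω hi (fun x hx _ => mem_cn.1 vT x hx)
        (P := part G S p π i) (fun z hz => part_adj hz) (disjoint_empty_right _) (q0 v)
        (by
          have := h.mc_nonneg (S.erase i) v
          rw [hq]
          exact max_le_max (by linarith) le_rfl)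
        (fun z => q v * q z / ω) (fun z _ => (fm z).trans (min_le_left _ _))
        (fun z _ => (fm z).trans (by rw [hq, hq]; exact min_le_swap))
      have n0 := mul_nonneg (q0 v) (nn_nonneg (G := G) ∅ v)
      rw [← sum_div, ← mul_sum, sum_part, ← hQi] at a
      have b : q v * (D + H) ≤ q v * (Qi + ∑ z ∈ good G S p i, q z) / ω := by
        rw [le_div_iff₀ ω0, mul_assoc]
        exact mul_le_mul_of_nonneg_left (by linarith) (q0 v)
      linarith
    have s := sum_le_sum pt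
    rw [sum_sub_distrib, ← sum_mul, ← mul_sum, ← hQi] at s
    have s0 : 0 ≤ ∑ v ∈ tf G S π i, ∑ z ∈ part G S p π (π v), w v z :=
      sum_nonneg fun v _ => sum_nonneg fun z _ => h.w0 v z
    have s1 : 0 ≤ ρ * ∑ z ∈ tf G S π i, (1 : ℝ) :=
      mul_nonneg r0 (sum_nonneg fun _ _ => zero_le_one)
    rw [← hQi, ← hal, ← hc]
    have e3 : m * (ω * D) = m * (Qi - ω * (H - c) - 2 * al) := by rw [hD]
    rcases le_total D 0 with d | d
    · have d1 := mul_nonneg (mul_nonneg m0 ω0.le) (neg_nonneg.2 d)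
      have d2 : 0 ≤ ω * m ^ 2 := by positivity
      linarith
    · have d1 := mul_nonneg ω0.le (sq_nonneg (D - m))
      have d2 := mul_nonneg d (show 0 ≤ ω * (H - c) + 2 * al by
        have := mul_nonneg ω0.le (sub_nonneg.2 c1)
        linarith)
      have e4 : D * (ω * D) = D * (Qi - ω * (H - c) - 2 * al) := by rw [hD]
      linarith
  have s := sum_le_sum pl
  simp only [sum_sub_distrib (s := S), ← mul_sum (s := S)] at s
  rw [sum_tf hπ, sum_tf hπ, sum_tf hπ, ← hQ, ← hIn] at s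
  have b2 := sum_good_le (G := G) (S := S) (p := p) (mc w t S) fun y => h.mc_nonneg S y
  have b3 := good_sum hH I
  rw [← hE, sum_sub_distrib] at b3
  rw [← haR] at b2
  have b4 := mul_le_mul_of_nonneg_left b2 m0
  have b5 := mul_le_mul_of_nonneg_left b3 (mul_nonneg m0 ω0.le)
  simp only [sum_const, nsmul_eq_mul, mul_one, I.cl.2] at s b5
  rw [← hT] at s
  linarith

/-- Second inner bound. -/
lemma Dat.i2 (h : Dat w t ρ)
    (hH : ∀ x, ((univ.filter fun y => ¬ G.Adj x y).card : ℝ) ≤ H)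
    (hcl : ∀ K, G.IsNClique (k + 1) K → 1 ≤ cost w t K) (I : Inv G w t ν k S g p)
    {ω : ℝ} (m : ℝ) (hω : ω = 1 - cost w t S) (ω0 : 0 < ω) {π : V → V}
    (hπ : ∀ v, π v ∈ S) {T1 E aR Q In U : ℝ} (hT : T1 = (cn G S).card)
    (hE : E = k * H - ((cn G S)ᶜ).card) (haR : aR = ∑ y ∈ (cn G S)ᶜ, mc w t S y)
    (hQ : Q = ∑ v ∈ cn G S, max (ω - 2 * mc w t (S.erase (π v)) v) 0)
    (hIn : In = ∑ v ∈ cn G S, ∑ z ∈ part G S p π (π v), w v z)
    (hU : U = ∑ v ∈ cn G S, max (ω - mc w t (S.erase (π v)) v) 0 * nn G (oth G S p (π v)) v) :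
    2 * m * Q - k * (ω * m ^ 2) - 2 * T1 * (aR + ω * E) + U - T1 * ρ ≤ In := by
  obtain ⟨P, hP⟩ : ∃ P : V → ℝ, ∀ z, P z = max (ω - 2 * mc w t (S.erase (π z)) z) 0 :=
    ⟨_, fun _ => rfl⟩
  have P0 : ∀ z, 0 ≤ P z := fun z => hP z ▸ le_max_right _ _
  have P1 : ∀ z, P z ≤ ω := fun z => hP z ▸
    max_le (by have := h.mc_nonneg (S.erase (π z)) z; linarith) ω0.le
  have pt : ∀ v ∈ cn G S, ∑ z ∈ tf G S π (π v), min (P v) (P z) - (2 * (aR + ω * E) + ρ) +
      max (ω - mc w t (S.erase (π v)) v) 0 * nn G (oth G S p (π v)) v ≤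
      ∑ z ∈ part G S p π (π v), w v z := by
    intro v vT
    obtain ⟨u, hu⟩ : ∃ u, u = max (ω - mc w t (S.erase (π v)) v) 0 := ⟨_, rfl⟩
    have u0 : 0 ≤ u := hu ▸ le_max_right _ _
    have y0 := h.mc_nonneg (S.erase (π v)) v
    have u1 : u ≤ ω := hu ▸ max_le (by linarith) ω0.le
    have a := h.inner hH hcl I.cl hω (hπ v) (fun x hx _ => mem_cn.1 vT x hx)
      (P := part G S p π (π v)) (fun z hz => part_adj hz) (part_disj π (π v)) u0 hu.le
      (fun z => if z ∈ cn G S then min (P v) (P z) else u - mc w t S z)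
      (fun z _ => by
        split_ifs
        · refine (min_le_left _ _).trans ?_
          rw [hP, hu]
          exact max_le_max (by linarith) le_rfl
        · have := h.mc_nonneg S z
          linarith)
      (fun z hz => by
        split_ifs with c
        · rcases mem_union.1 hz with e | e
          · rw [hP, hP, (mem_filter.1 e).2]
            exact min_le_swap
          · exact absurd c (good_out e)
        · have z0 := h.mc_nonneg S z
          have z1 := h.mc_mono (erase_subset (π v) S) z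
          rcases le_total (ω - mc w t (S.erase (π v)) v) 0 with e | e
          · rw [max_eq_right e] at hu
            exact le_max_of_le_right (by linarith)
          · rw [max_eq_left e] at hu
            exact le_max_of_le_left (by linarith))
    rw [sum_part, sum_congr rfl fun z (hz : z ∈ tf G S π (π v)) => if_pos (mem_filter.1 hz).1,
      sum_congr rfl fun z (hz : z ∈ good G S p (π v)) => if_neg (good_out hz), sum_sub_distrib,
      sum_const, nsmul_eq_mul] at a
    have b1 : ∑ z ∈ good G S p (π v), mc w t S z ≤ aR := by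
      rw [haR]
      exact sum_le_sum_of_subset_of_nonneg (filter_subset _ _) fun z _ _ => h.mc_nonneg S z
    have b2 := def_le hH I (hπ v)
    have b3 := good_le hH I (π v)
    rw [← hE] at b2
    have b4 := mul_le_mul u1 b2 (sub_nonneg.2 b3) ω0.le
    have b5 : 0 ≤ aR := haR ▸ sum_nonneg fun y _ => h.mc_nonneg S y
    rw [← hu]
    linarith
  have s := sum_le_sum pt
  rw [sum_add_distrib, sum_sub_distrib, sum_const, nsmul_eq_mul, ← hT, ← hU, ← hIn] at s
  have a2 : 2 * m * Q - k * (ω * m ^ 2) ≤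
      ∑ v ∈ cn G S, ∑ y ∈ tf G S π (π v), min (P v) (P y) := by
    rw [hQ, ← sum_congr rfl fun z _ => hP z, ← sum_tf hπ, ← sum_tf hπ,
      ← I.cl.2, ← nsmul_eq_mul, ← sum_const, mul_sum, ← sum_sub_distrib]
    refine sum_le_sum fun i _ => (min_sum _ P m ω0 P0 P1).trans (le_of_eq ?_)
    exact sum_congr rfl fun v hv => by rw [(mem_filter.1 hv).2]
  linarith

end Pool.Agent.Lib.YL60
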