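import Pool.Agent.Lib.YL60.Spread

namespace Pool.Agent.Lib.YL60

open Finset Filter Topology Pool.Agent.Lib.MP_dcb632_co
open scoped Classical

/-- From the dual inequality to packings. -/
lemma pn_ge {r : ℕ} (hr : 2 ≤ r) {ε : ℝ} (hε : 0 < ε) : ∃ ρ > 0, ∃ n0 : ℕ,
    ∀ (V : Type) [Fintype V] (G : SimpleGraph V) (val : ℝ), n0 ≤ Fintype.card V →
      (∀ w t, Dat w t ρ → (∀ K, G.IsNClique r K → 1 ≤ cost w t K) →
        2 * val ≤ ∑ y, ∑ z, w y z) →
      val - ε * (Fintype.card V : ℝ) ^ 2 ≤ packingNumber G r := by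
  obtain ⟨δ, δ0, n0, h⟩ := Top.round hr hε
  refine ⟨3 / δ, by positivity, n0, fun V _ G val hn hd => ?_⟩
  rcases le_total val 0 with c | c
  · have : (0 : ℝ) ≤ packingNumber G r := Nat.cast_nonneg _
    have : 0 ≤ ε * (Fintype.card V : ℝ) ^ 2 := by positivity
    linarith
  · obtain ⟨x, x0, x2, x3, xv⟩ := spread G hr δ0 c hd
    obtain ⟨P, hP, lo⟩ := h V G x hn x0 x2 x3
    obtain ⟨Q, -, eQ, hQ⟩ := pn_spec G r
    have l1 : (P.card : ℝ) ≤ packingNumber G r := by exact_mod_cast eQ ▸ hQ P hP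
    rw [xv] at lo
    linarith

lemma nonadj_le {n d : ℕ} (G : SimpleGraph (Fin n)) (hG : ∀ v, d ≤ dg G v) {H : ℝ}
    (hH : (n : ℝ) - d ≤ H) (x : Fin n) :
    ((univ.filter fun y => ¬ G.Adj x y).card : ℝ) ≤ H := by
  have a := card_sel_add (fun y => G.Adj x y)
  have b := hG x
  rw [Fintype.card_fin] at a
  have c : (sel fun y => ¬ G.Adj x y).card + d ≤ n := by
    unfold dg at b
    omega
  have e : ((sel fun y => ¬ G.Adj x y).card : ℝ) + d ≤ n := by exact_mod_cast c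
  have f : (univ.filter fun y => ¬ G.Adj x y) = sel fun y => ¬ G.Adj x y := by
    ext y
    simp
  rw [f]
  linarith

lemma ev_lin (c d : ℝ) (hd : 0 < d) : ∀ᶠ n : ℕ in atTop, c < d * n :=
  (tendsto_natCast_atTop_atTop.const_mul_atTop hd).eventually_gt_atTop c

/-- The known upper bound, in real form. -/
lemma mp_le (k n d : ℕ) (hk : 0 < k) (hd : d < n) {c : ℝ} (c0 : 0 ≤ c)
    (hc : (n : ℝ) / k - (n - d) ≤ c) :
    (minPacking (k + 1) n d : ℝ) ≤ ((n + k) * (c + 1) + k) / 2 := by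
  obtain ⟨G, h1, h2⟩ := upper_fin k n (n - d) hk (by omega)
  rw [show n - (n - d) = d by omega] at h1
  have a : minPacking (k + 1) n d ≤ packingNumber G (k + 1) := Nat.sInf_le ⟨G, h1, rfl⟩
  have k0 : (0 : ℝ) < k := by exact_mod_cast hk
  have q1 : ((n / k : ℕ) : ℝ) ≤ n / k := Nat.cast_div_le
  have hρ := (Nat.mod_lt n hk).le
  generalize n % k = ρ at h2 hρ
  generalize n / k = q at h2 q1
  have b1 : (q * (q - (n - d)) + 1) / 2 ≤ ((q + 1) * (q + 1 - (n - d)) + 1) / 2 :=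
    Nat.div_le_div_right (Nat.add_le_add_right (Nat.mul_le_mul (by omega) (by omega)) 1)
  have b2 : 2 * (((q + 1) * (q + 1 - (n - d)) + 1) / 2) ≤ (q + 1) * (q + 1 - (n - d)) + 1 :=
    Nat.mul_div_le _ _
  have b3 : ((q + 1 - (n - d) : ℕ) : ℝ) ≤ c + 1 := by
    rcases le_total (q + 1) (n - d) with e | e
    · rw [Nat.sub_eq_zero_of_le e]
      push_cast
      linarith
    · rw [Nat.cast_sub e, Nat.cast_sub hd.le]
      push_cast
      linarith
  generalize q + 1 - (n - d) = u at b1 b2 b3 h2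
  generalize (q * (q - (n - d)) + 1) / 2 = A at b1 h2
  generalize ((q + 1) * u + 1) / 2 = B at b1 b2 h2
  have b4 : minPacking (k + 1) n d ≤ k * B := by
    obtain ⟨j, rfl⟩ := Nat.exists_eq_add_of_le hρ
    rw [Nat.add_sub_cancel_left] at h2
    have := Nat.mul_le_mul_left j b1
    rw [add_mul]
    omega
  have b5 : (minPacking (k + 1) n d : ℝ) ≤ k * B := by exact_mod_cast b4
  have b6 : 2 * (B : ℝ) ≤ (q + 1) * u + 1 := by exact_mod_cast b2
  have b7 : (k : ℝ) * q ≤ n := by rwa [le_div_iff₀ k0, mul_comm] at q1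
  have b8 : ((k : ℝ) * q + k) * u ≤ (n + k) * (c + 1) :=
    mul_le_mul (by linarith) b3 (Nat.cast_nonneg _) (by positivity)
  have b9 := mul_le_mul_of_nonneg_left b6 k0.le
  nlinarith

lemma floor_facts {γ : ℝ} (h0 : 0 ≤ γ) (h1 : γ < 1) {n : ℕ} (hn : 0 < n) :
    (⌊γ * n⌋₊ : ℝ) ≤ γ * n ∧ γ * n < ⌊γ * n⌋₊ + 1 ∧ ⌊γ * n⌋₊ < n := by
  have n0 : (0 : ℝ) < n := by exact_mod_cast hn
  have f1 : (⌊γ * n⌋₊ : ℝ) ≤ γ * n := Nat.floor_le (by positivity)
  refine ⟨f1, Nat.lt_floor_add_one _, ?_⟩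
  have : (⌊γ * n⌋₊ : ℝ) < n := by nlinarith
  exact_mod_cast this

theorem line {k : ℕ} (hk : 2 ≤ k) {γ c : ℝ} (hc : c = 1 / k - (1 - γ)) (c0 : 0 ≤ c)
    (c1 : 4 * (c * k) ≤ 1 - γ) :
    Tendsto (fun n : ℕ => (minPacking (k + 1) n ⌊γ * n⌋₊ : ℝ) / (n : ℝ) ^ 2) atTop (𝓝 (c / 2)) := by
  have k2 : (2 : ℝ) ≤ k := by exact_mod_cast hk
  have k0 : (0 : ℝ) < k := by linarith
  have ck : c * k = 1 - k * (1 - γ) := by
    rw [hc]
    field_simp
  have h1 : γ < 1 := by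
    by_contra hn
    push Not at hn
    nlinarith
  have ck0 : 0 ≤ c * k := by positivity
  have h0 : 0 ≤ γ := by nlinarith
  have cc : c ≤ 1 := by nlinarith
  rw [Metric.tendsto_atTop]
  intro ε hε
  obtain ⟨ρ, ρ0, n0, hn0⟩ := pn_ge (r := k + 1) (by omega) (half_pos hε)
  obtain ⟨N, hN⟩ := eventually_atTop.1 ((eventually_ge_atTop n0).and ((ev_lin 1 1 one_pos).and
    ((ev_lin (10 * ρ) _ (sub_pos.2 h1)).and ((ev_lin (1 + ρ * k) _ (half_pos hε)).and
      ((ev_lin (1 + 3 * k) _ hε).and (ev_lin (2 * ρ * k) 1 one_pos))))))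
  refine ⟨N, fun n hn => ?_⟩
  obtain ⟨a0, a1, a2, a3, a4, a5⟩ := hN n hn
  rw [one_mul] at a1 a5
  have n0' : (0 : ℝ) < n := by linarith
  obtain ⟨f1, f2, f3⟩ := floor_facts h0 h1 (n := n) (by exact_mod_cast n0')
  obtain ⟨⟨G, hG, eG⟩, -⟩ := Top.mp_upper (r := k + 1) f3
  have nk : (n : ℝ) / k = (c + (1 - γ)) * n := by
    rw [hc]
    field_simp
    ring
  have up := mp_le k n _ (by omega) f3 (c := c * n) (by positivity) (by linarith)
  have lo := hn0 (Fin n) G ((n * (c * n - 1) - 2 * ρ * (k * (c * n - 1))) / 2)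
    (by rwa [Fintype.card_fin]) fun w t D hcl => by
      rcases le_or_gt (c * n - 1) 0 with e | e
      · have s0 : 0 ≤ ∑ y, ∑ z, w y z := sum_nonneg fun y _ => sum_nonneg fun z _ => D.w0 y z
        nlinarith [mul_nonneg (sub_nonneg.2 a5.le) (neg_nonneg.2 e)]
      · have := D.core_exact (H := (1 - γ) * n + 1) hk (nonadj_le G hG (by linarith)) hcl e
          (by
            rw [Fintype.card_fin]
            rw [div_eq_iff k0.ne'] at nk
            linarith)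
          (by nlinarith) (by linarith)
        rw [Fintype.card_fin] at this
        linarith
  rw [eG, Fintype.card_fin] at lo
  clear hn0 hN
  generalize (minPacking (k + 1) n ⌊γ * n⌋₊ : ℝ) = f at *
  have n2 : (0 : ℝ) < n ^ 2 := by positivity
  have key : f / n ^ 2 - c / 2 = (f - c / 2 * n ^ 2) / n ^ 2 := by field_simp
  rw [Real.dist_eq, key, abs_lt, lt_div_iff₀ n2, div_lt_iff₀ n2]
  have b1 := mul_lt_mul_of_pos_right a3 n0'
  have b2 := mul_lt_mul_of_pos_right a4 n0'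
  have b3 : ρ * k * (c * n) ≤ ρ * k * n := mul_le_mul_of_nonneg_left (by nlinarith) (by positivity)
  have b4 : k * (c * n) ≤ k * n := mul_le_mul_of_nonneg_left (by nlinarith) (by positivity)
  have b5 : 0 ≤ ρ * k := by positivity
  have b6 : (k : ℝ) ≤ k * n := by nlinarith
  constructor
  · nlinarith
  · nlinarith

theorem whole {k : ℕ} (hk : 1 ≤ k) {γ h ε : ℝ} (h0 : 0 ≤ γ) (h1 : γ < 1) (hh : 1 - γ ≤ h)
    (hr : 1 ≤ (k + 1) * h) (hε : 0 < ε) :
    ∀ᶠ n : ℕ in atTop, (h * (1 - k * h) / 2 - ε) * (n : ℝ) ^ 2 ≤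
      minPacking (k + 1) n ⌊γ * n⌋₊ := by
  have k1 : (1 : ℝ) ≤ k := by exact_mod_cast hk
  have hp : 0 < h := by linarith
  rcases le_or_gt (1 - k * h) 0 with c | c
  · refine Eventually.of_forall fun n => le_trans ?_ (Nat.cast_nonneg _)
    exact mul_nonpos_of_nonpos_of_nonneg (by nlinarith) (by positivity)
  have h2 : h ≤ 1 := by nlinarith
  obtain ⟨ρ, ρ0, n0, hn0⟩ := pn_ge (r := k + 1) (by omega) (half_pos hε)
  filter_upwards [eventually_ge_atTop n0, ev_lin 1 1 one_pos, ev_lin ρ h hp,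
    ev_lin (2 * k + 2 * ρ) ε hε, ev_lin k _ c] with n a0 a1 a2 a3 a4
  rw [one_mul] at a1
  have n0' : (0 : ℝ) < n := by linarith
  obtain ⟨f1, f2, f3⟩ := floor_facts h0 h1 (n := n) (by exact_mod_cast n0')
  obtain ⟨⟨G, hG, eG⟩, -⟩ := Top.mp_upper (r := k + 1) f3
  have lo := hn0 (Fin n) G
    (((h * n + 1) * ((1 - k * h) * n - k) - (h * n + 1) * ρ) / 2)
    (by rwa [Fintype.card_fin]) fun w t D hcl => by
      have := D.core_first (H := h * n + 1) (T0 := (1 - k * h) * n - k)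
        (nonadj_le G hG (by nlinarith)) hcl (by linarith)
        (by
          rw [Fintype.card_fin]
          ring)
        (by nlinarith) (by linarith)
      linarith
  rw [eG, Fintype.card_fin] at lo
  have b1 := mul_lt_mul_of_pos_right a3 n0'
  have b2 : h * n + 1 ≤ 2 * n := by nlinarith
  have b3 := mul_le_mul_of_nonneg_right b2 (show 0 ≤ (k : ℝ) + ρ by positivity)
  have b4 : 0 ≤ (1 - k * h) * n := by positivity
  nlinarith

end Pool.Agent.Lib.YL60
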