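import Pool.Agent.Lib.YL60.Mix

namespace Pool.Agent.Lib.YL60

open Finset
open scoped Classical

variable {V : Type} [Fintype V] {w : V → V → ℝ} {t : V → V → V → ℝ} {ρ : ℝ}
  {G : SimpleGraph V} {H : ℝ} {k : ℕ}

lemma arith_dt {H m s T0 T1 ω W ρ κ aR Y Sg X Q In U Cr Z Ta DT : ℝ} (m0 : 0 < m)
    (hs : m = s * H) (s0 : 0 ≤ s) (hm : 400 * m ≤ H) (T10 : 0 ≤ T1) (W1 : W ≤ 1) (r0 : 0 ≤ ρ)
    (Y0 : 0 ≤ Y) (aY : aR ≤ Y) (Cr0 : 0 ≤ Cr)
    (i1 : 2 * m * Q - T0 * (ω * m) - 4 * m * Y - T1 * ρ ≤ In)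
    (i2 : 2 * m * Q - T0 * (ω * m) - 2 * T1 * Y + U - T1 * ρ ≤ In)
    (hM : 25 * H ^ 2 * (X - 8 * Sg - Ta) - 175 * H * U ≤
      30 * H * (Cr + T1 * (aR + κ * ρ)) + 18 * (T1 * Z))
    (hQ : ω * T1 - 2 * X ≤ Q) (hD : In + Cr ≤ DT) (hTa : Ta ≤ ρ * W) :
    H * (2 * m * ω * T1 - T0 * (ω * m) - T1 * ρ) + 11 * (m * H * X) - 4 * (m * H * Y) -
      228 * (m * T1 * Y) - 120 * (m * H * Sg) - 15 * (m * H * ρ) - 18 * (m * T1 * (κ * ρ)) -
      54 / 5 * (s * (T1 * Z)) ≤ H * DT := by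
  have H0 : 0 < H := by linarith
  have a1 := mul_le_mul_of_nonneg_left i1 (show 0 ≤ H - 105 * m by linarith)
  have a2 := mul_le_mul_of_nonneg_left i2 (show 0 ≤ 105 * m by linarith)
  have a3 := mul_le_mul_of_nonneg_left hM s0
  have a4 := mul_le_mul_of_nonneg_left hQ (mul_nonneg m0.le H0.le)
  have a5 := mul_le_mul_of_nonneg_left hD H0.le
  have a6 := mul_le_mul_of_nonneg_right (show 18 * m ≤ H by linarith) Cr0
  have a7 := mul_le_mul_of_nonneg_left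
    (hTa.trans (mul_le_mul_of_nonneg_left W1 r0)) (mul_nonneg m0.le H0.le)
  have a8 := mul_le_mul_of_nonneg_left aY (mul_nonneg m0.le T10)
  have a9 : 0 ≤ m * m * Y := by positivity
  subst hs
  linarith

lemma arith_fin {H m s σ T0 T1 E ω W ρ κ aR aT X Z DT DR : ℝ} (m0 : 0 < m)
    (hs : m = s * H) (s0 : 0 ≤ s) (hσ : T0 = σ * H) (σ0 : 0 ≤ σ) (hm : T0 + 400 * m ≤ H)
    (T00 : 0 < T0) (hT : T1 = T0 + E) (E0 : 0 ≤ E) (E1 : 84 * E ≤ H) (hω : ω = 1 - W)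
    (ω0 : 0 ≤ ω) (W0 : 0 ≤ W) (r0 : 0 ≤ ρ) (r1 : ρ ≤ m) (k1 : 1 ≤ κ) (aR0 : 0 ≤ aR)
    (S0 : 0 ≤ aT - ω * T1) (X0 : 0 ≤ X) (DT0 : 0 ≤ DT)
    (b : T1 * (H * (aR + aT - ρ * W + (T0 + 14 * m) * W)) ≤
      T1 * (DR + (T0 + 14 * m) * aR) + E * (DT + (T0 + 14 * m) * aT))
    (cr : ω * H * T1 - H * X + Z - 6 * H * (aR + ω * E) - κ * H * ρ ≤ DR)
    (dt : H * (2 * m * ω * T1 - T0 * (ω * m) - T1 * ρ) + 11 * (m * H * X) -
      4 * (m * H * (aR + ω * E)) - 228 * (m * T1 * (aR + ω * E)) -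
      120 * (m * H * (aT - ω * T1)) - 15 * (m * H * ρ) - 18 * (m * T1 * (κ * ρ)) -
      54 / 5 * (s * (T1 * Z)) ≤ H * DT) :
    T0 * (H + m) - 4 * ρ * (κ * H) ≤ DT + DR := by
  have H0 : 0 < H := by linarith
  have T10 : 0 < T1 := by linarith
  obtain ⟨Sg, hS⟩ : ∃ x, x = aT - ω * T1 := ⟨_, rfl⟩
  obtain ⟨Y, hY⟩ : ∃ x, x = aR + ω * E := ⟨_, rfl⟩
  obtain ⟨Δ, hΔ⟩ : ∃ x, x = H - (T0 + 14 * m) := ⟨_, rfl⟩
  have Y0 : 0 ≤ Y := by rw [hY]; positivity
  have Δ1 : 386 * m ≤ Δ := by linarith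
  rw [← hS] at S0
  have σ1 : σ ≤ 1 := le_of_mul_le_mul_right (by linarith) H0
  have s1 : 400 * s ≤ 1 := le_of_mul_le_mul_right (by linarith) H0
  have B : T1 * (Δ * Y + ω * T0 * H + H * (T0 + 14 * m - ρ) * W) + T0 * (H * Sg + DT) ≤
      T1 * (DT + DR) := by
    have : 0 ≤ E * Δ * Sg := mul_nonneg (mul_nonneg E0 (by linarith)) S0
    have e : aT = Sg + ω * T1 := by linarith
    subst e hT hY hΔ
    linarith
  have C : T1 * (ω * T0 * H - H * X + Z - 6 * H * Y - κ * H * ρ) + T0 * DT ≤ T1 * (DT + DR) := by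
    have a1 := mul_le_mul_of_nonneg_left cr T10.le
    have a2 : 0 ≤ E * DT := by positivity
    have a3 : 0 ≤ T1 * (ω * H * E) := by positivity
    rw [← hY] at a1
    subst hT
    linarith
  rw [← hS, ← hY] at dt
  obtain ⟨l, hl⟩ : ∃ x, x = 54 / 5 * (s * σ) := ⟨_, rfl⟩
  have l0 : 0 ≤ l := by rw [hl]; positivity
  have l1 : l ≤ 27 / 1000 := by
    have := mul_le_mul_of_nonneg_left σ1 s0
    linarith
  have lH : l * H = 54 / 5 * (m * σ) := by rw [hl, hs]; ring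
  have mσ : m * σ ≤ m := by have := mul_le_mul_of_nonneg_left σ1 m0.le; linarith
  have mσ0 : 0 ≤ m * σ := by positivity
  have dt' : T0 * (2 * m * ω * T1 - T0 * (ω * m) - T1 * ρ) + 11 * (m * σ * H * X) -
      4 * (m * T0 * Y) - 228 * (m * σ * T1 * Y) - 120 * (m * T0 * Sg) - 15 * (m * T0 * ρ) -
      18 * (m * σ * T1 * (κ * ρ)) - l * (T1 * Z) ≤ T0 * DT := by
    have := mul_le_mul_of_nonneg_left dt σ0
    rw [hl]
    subst hσ
    linarith
  have c1 := mul_le_mul_of_nonneg_left B (show 0 ≤ 1 - l by linarith)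
  have c2 := mul_le_mul_of_nonneg_left C l0
  have x1 : l * (T1 * (H * X)) ≤ 11 * (m * σ * H * X) := by
    have a : 0 ≤ m * σ * X * (11 * H - 54 / 5 * T1) :=
      mul_nonneg (mul_nonneg mσ0 X0) (by linarith)
    have e : l * (T1 * (H * X)) = l * H * (T1 * X) := by ring
    rw [e, lH]
    linarith
  have x2 : 120 * (m * T0 * Sg) ≤ (1 - l) * (T0 * (H * Sg)) := by
    have a : 0 ≤ T0 * Sg * (H - l * H - 120 * m) :=
      mul_nonneg (mul_nonneg T00.le S0) (by linarith)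
    linarith
  have x3 : l * (T1 * (6 * H * Y)) + 4 * (m * T0 * Y) + 228 * (m * σ * T1 * Y) ≤
      (1 - l) * (T1 * (Δ * Y)) := by
    have a0 := mul_le_mul_of_nonneg_right l1 (show 0 ≤ Δ by linarith)
    have a : 0 ≤ T1 * Y * (Δ - l * Δ - 6 * (l * H) - 4 * m - 228 * (m * σ)) :=
      mul_nonneg (mul_nonneg T10.le Y0) (by linarith)
    have a2 : 0 ≤ m * E * Y := by positivity
    have e : m * T1 * Y = m * T0 * Y + m * E * Y := by rw [hT]; ring
    linarith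
  have x4 : T1 * (T0 * (H + m) * W) ≤ (1 - l) * (T1 * (H * (T0 + 14 * m - ρ) * W)) := by
    have a1 : l * H * (T0 + 14 * m - ρ) ≤ 54 / 5 * m * H :=
      mul_le_mul (by linarith) (by linarith) (by linarith) (by positivity)
    have a2 := mul_le_mul_of_nonneg_left r1 H0.le
    have a3 := mul_le_mul_of_nonneg_left (show T0 ≤ H by linarith) m0.le
    have a4 : 0 ≤ m * H := by positivity
    have a : 0 ≤ T1 * W * ((1 - l) * (H * (T0 + 14 * m - ρ)) - T0 * (H + m)) :=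
      mul_nonneg (mul_nonneg T10.le W0) (by linarith)
    linarith
  have x5 : l * (T1 * (κ * H * ρ)) + T0 * (T1 * ρ) + 15 * (m * T0 * ρ) +
      18 * (m * σ * T1 * (κ * ρ)) ≤ T1 * (4 * ρ * (κ * H)) := by
    have p0 : 0 ≤ T1 * ρ := by positivity
    have p1 : 0 ≤ T1 * (κ * ρ) := by positivity
    have a1 := mul_le_mul_of_nonneg_right (show l ≤ 1 by linarith)
      (show 0 ≤ T1 * (κ * H * ρ) by positivity)
    have a2 := mul_le_mul_of_nonneg_right (show T0 ≤ H by linarith) p0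
    have a3 : 15 * m * (T0 * ρ) ≤ H * (T1 * ρ) :=
      mul_le_mul (by linarith) (mul_le_mul_of_nonneg_right (by linarith) r0) (by positivity) H0.le
    have a4 := mul_le_mul_of_nonneg_right (show 18 * (m * σ) ≤ H by linarith) p1
    have a5 := mul_le_mul_of_nonneg_right k1 (show 0 ≤ H * (T1 * ρ) by positivity)
    linarith
  have x6 : 0 ≤ T0 * (ω * m) * E := by positivity
  have x7 : T1 * (T0 * (H + m)) = T1 * (T0 * (H + m) * W) + T1 * (ω * T0 * H) +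
      T0 * (m * ω * T1) := by rw [hω]; ring
  have x8 : T0 * (m * ω * T1) = T0 * (T0 * (ω * m)) + T0 * (ω * m) * E := by rw [hT]; ring
  refine le_of_mul_le_mul_left ?_ T10
  linarith

/-- Exact dual bound on the wide window. -/
theorem Dat.core_wide (h : Dat w t ρ) (hk : 1 ≤ k)
    (hH : ∀ x, ((univ.filter fun y => ¬ G.Adj x y).card : ℝ) ≤ H)
    (hcl : ∀ K, G.IsNClique (k + 1) K → 1 ≤ cost w t K) {m : ℝ} (m0 : 0 < m)
    (hn : (Fintype.card V : ℝ) = k * (H + m)) (hm : k * m + 400 * m ≤ H) (hρ : ρ ≤ m) :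
    Fintype.card V * m - 4 * ρ * (k * H) ≤ ∑ y, ∑ z, w y z := by
  have k1 : (1 : ℝ) ≤ k := by exact_mod_cast hk
  have mk : 0 < k * m := by positivity
  have H0 : 0 < H := by linarith
  have r0 := h.r0
  obtain ⟨S, g, p, I⟩ := h.greedy G (ν := k * m + 14 * m) (by positivity) H0.le hH k
    (by rw [hn]; linarith)
  obtain ⟨ω, hω⟩ : ∃ x, x = 1 - cost w t S := ⟨_, rfl⟩
  obtain ⟨T1, hT⟩ : ∃ x : ℝ, x = (cn G S).card := ⟨_, rfl⟩
  obtain ⟨E, hE⟩ : ∃ x : ℝ, x = k * H - ((cn G S)ᶜ).card := ⟨_, rfl⟩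
  obtain ⟨aR, haR⟩ : ∃ x, x = ∑ y ∈ (cn G S)ᶜ, mc w t S y := ⟨_, rfl⟩
  obtain ⟨aT, haT⟩ : ∃ x, x = ∑ y ∈ cn G S, mc w t S y := ⟨_, rfl⟩
  obtain ⟨DR, hDR⟩ : ∃ x, x = ∑ y ∈ (cn G S)ᶜ, ∑ z, w y z := ⟨_, rfl⟩
  obtain ⟨DT, hDT⟩ : ∃ x, x = ∑ y ∈ cn G S, ∑ z, w y z := ⟨_, rfl⟩
  obtain ⟨E0, b⟩ := h.base H0.le hH I hT hE haR haT hDR hDT
  have sz := sizes (G := G) S
  have W0 := h.cost_nonneg S
  have aR0 : 0 ≤ aR := haR ▸ sum_nonneg fun y _ => h.mc_nonneg S y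
  have aT0 : 0 ≤ aT := haT ▸ sum_nonneg fun y _ => h.mc_nonneg S y
  have DT0 : 0 ≤ DT := hDT ▸ sum_nonneg fun y _ => sum_nonneg fun z _ => h.w0 y z
  have S0 : 0 ≤ aT - ω * T1 := by
    rw [sub_nonneg, hT, haT, hω, mul_comm, ← nsmul_eq_mul]
    exact card_nsmul_le_sum _ _ _ fun y hy => h.mc_ge hcl I.cl hy
  have hT' : T1 = k * m + E := by rw [hn] at sz; linarith
  have T10 : 0 < T1 := by linarith
  have e0 : (k : ℝ) * (H + m) * m = k * m * (H + m) := by ring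
  rw [← sum_add_sum_compl (cn G S), hn, ← hDT, ← hDR, e0]
  have q0 : 0 ≤ ρ * (k * H) := by positivity
  have q1 : k * m * (H + m) ≤ H * (k * m + 14 * m - ρ) := by
    have a2 := mul_le_mul_of_nonneg_left hρ H0.le
    have a3 := mul_le_mul_of_nonneg_left (show k * m ≤ H by linarith) m0.le
    have a4 : 0 ≤ m * H := by positivity
    linarith
  have q2 := mul_le_mul_of_nonneg_left (mul_le_mul_of_nonneg_right q1 W0) T10.le
  have q3 : 0 ≤ k * m * DT := by positivity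
  have q4 : 0 ≤ T1 * (ρ * (k * H)) := by positivity
  have Δ0 : 0 ≤ H - (k * m + 14 * m) := by linarith
  rcases le_or_gt ω 0 with c | ω0
  · refine le_of_mul_le_mul_left ?_ T10
    have d1 : 0 ≤ T1 * ((H - (k * m + 14 * m)) * aR) := by positivity
    have d2 : 0 ≤ (k * m * H + E * (H - (k * m + 14 * m))) * aT := by positivity
    have d3 : 0 ≤ T1 * (k * m * (H + m) * (cost w t S - 1)) := by
      have : 0 ≤ cost w t S - 1 := by linarith
      positivity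
    subst hT'
    linarith
  rcases le_or_gt (ω * (k * m * m)) ((H - (k * m + 14 * m)) * (aR + ω * E)) with c | c
  · refine le_of_mul_le_mul_left ?_ T10
    have d1 := mul_le_mul_of_nonneg_left c T10.le
    have d2 : 0 ≤ (k * m * H + E * (H - (k * m + 14 * m))) * (aT - ω * T1) := by positivity
    have e : cost w t S = 1 - ω := by linarith
    rw [e] at b q2
    subst hT'
    linarith
  have E1 : 84 * E ≤ H := by
    have d1 : 0 ≤ (H - (k * m + 14 * m)) * aR := by positivity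
    have d2 := mul_le_mul_of_nonneg_right (show 84 * m ≤ H - (k * m + 14 * m) by linarith)
      (mul_nonneg ω0.le E0)
    have d3 := mul_le_mul_of_nonneg_left (show k * m ≤ H by linarith) (mul_pos ω0 m0).le
    exact le_of_mul_le_mul_left (by linarith) (mul_pos ω0 m0)
  have ex : ∀ v, ∃ i, i ∈ S ∧ ∀ a ∈ S, w a v ≤ w i v := fun v =>
    exists_max_image S (fun a => w a v) (card_pos.1 (by rw [I.cl.2]; omega))
  choose π hπ hmax using ex
  obtain ⟨X, hX⟩ : ∃ x, x = ∑ v ∈ cn G S, min (mc w t (S.erase (π v)) v) ω := ⟨_, rfl⟩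
  obtain ⟨Z, hZ⟩ : ∃ x, x = ∑ l ∈ S, ∑ y ∈ good G S p l, ∑ z ∈ oth G S p l, pen G w ω y z :=
    ⟨_, rfl⟩
  have cr := h.cr H0.le hH hcl I hω ω0.le hπ hT hE haR hDR hX hZ (by linarith)
  have i1 := h.i1 hH hcl I hω ω0 m0.le hπ hT hE haR rfl rfl
  obtain ⟨U, hU⟩ : ∃ x, x = ∑ v ∈ cn G S,
    max (ω - mc w t (S.erase (π v)) v) 0 * nn G (oth G S p (π v)) v := ⟨_, rfl⟩
  have i2 := h.i2 hH hcl I m hω ω0 hπ hT hE haR rfl rfl hU
  have hM := sum_le_sum fun v (hv : v ∈ cn G S) =>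
    h.mvertex H0 hH hcl I hω ω0.le hE E1 haR hZ hv (hπ v) (hmax v)
  simp only [sum_add_distrib (s := cn G S), sum_sub_distrib (s := cn G S),
    ← mul_sum (s := cn G S), sum_const, nsmul_eq_mul] at hM
  rw [← hT, ← hX, ← haT, ← hU] at hM
  have hQ : ω * T1 - 2 * X ≤ ∑ v ∈ cn G S, max (ω - 2 * mc w t (S.erase (π v)) v) 0 := by
    rw [hT, hX, mul_comm, ← nsmul_eq_mul, ← sum_const, mul_sum, ← sum_sub_distrib]
    refine sum_le_sum fun v _ => ?_
    rcases le_total (mc w t (S.erase (π v)) v) ω with q | q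
    · rw [min_eq_left q]
      exact le_max_left _ _
    · rw [min_eq_right q]
      exact le_max_of_le_right (by linarith)
  have hD : ∑ v ∈ cn G S, ∑ z ∈ part G S p π (π v), w v z +
      ∑ v ∈ cn G S, ∑ z ∈ oth G S p (π v), w v z ≤ DT := by
    rw [hDT, ← sum_add_distrib]
    exact sum_le_sum fun v _ => h.deg_split π (π v) v
  have hTa : ∑ v ∈ cn G S, tau t S v ≤ ρ * cost w t S :=
    (sum_le_sum_of_subset_of_nonneg (subset_univ _) fun y _ _ => h.tau_nonneg S y).trans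
      (h.sum_tau S)
  have hs : m = m / H * H := by field_simp
  have dt := arith_dt (T0 := k * m) (κ := k) (Sg := aT - ω * T1) (Z := Z) (aR := aR) (U := U)
    m0 hs (by positivity) (by linarith) T10.le (by linarith) r0
    (show 0 ≤ aR + ω * E by positivity) (by have := mul_nonneg ω0.le E0; linarith)
    (sum_nonneg fun v _ => sum_nonneg fun z _ => h.w0 v z) (by linarith) (by linarith)
    (by linarith) hQ hD hTa
  exact arith_fin m0 hs (by positivity) (show k * m = k * m / H * H by field_simp) (by positivity)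
    hm mk hT' E0 E1 hω ω0.le W0 r0 hρ k1 aR0 S0
    (hX ▸ sum_nonneg fun v _ => le_min (h.mc_nonneg _ v) ω0.le) DT0 b cr dt

end Pool.Agent.Lib.YL60
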