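import Pool.Agent.Lib.YL60.Lim
import Pool.Agent.Lib.YL60.Wide

namespace Pool.Agent.Lib.YL60

open Finset Filter Topology Pool.Agent.Lib.MP_dcb632_co
open scoped Classical

theorem line_wide {k : ℕ} (hk : 1 ≤ k) {γ c : ℝ} (hc : c = 1 / k - (1 - γ)) (c0 : 0 < c)
    (c1 : c * k + 400 * c ≤ 1 - γ) :
    Tendsto (fun n : ℕ => (minPacking (k + 1) n ⌊γ * n⌋₊ : ℝ) / (n : ℝ) ^ 2) atTop (𝓝 (c / 2)) := by
  have k2 : (1 : ℝ) ≤ k := by exact_mod_cast hk
  have k0 : (0 : ℝ) < k := by linarith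
  have ck : c * k = 1 - k * (1 - γ) := by
    rw [hc]
    field_simp
  have ck0 : 0 < c * k := by positivity
  have h1 : γ < 1 := by linarith
  have h0 : 0 ≤ γ := by nlinarith
  have cc : c ≤ 1 := by nlinarith
  rw [Metric.tendsto_atTop]
  intro ε hε
  obtain ⟨ρ, ρ0, n0, hn0⟩ := pn_ge (r := k + 1) (by omega) (half_pos hε)
  obtain ⟨N, hN⟩ := eventually_atTop.1 ((eventually_ge_atTop n0).and ((ev_lin 1 1 one_pos).and
    ((ev_lin (ρ + 1) _ c0).and ((ev_lin (1 + 4 * (ρ * k)) _ (half_pos hε)).and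
      (ev_lin (1 + 3 * k) _ hε)))))
  refine ⟨N, fun n hn => ?_⟩
  obtain ⟨a0, a1, a2, a3, a4⟩ := hN n hn
  rw [one_mul] at a1
  have n0' : (0 : ℝ) < n := by linarith
  obtain ⟨f1, f2, f3⟩ := floor_facts h0 h1 (n := n) (by exact_mod_cast n0')
  obtain ⟨⟨G, hG, eG⟩, -⟩ := Top.mp_upper (r := k + 1) f3
  have nk : (n : ℝ) / k = (c + (1 - γ)) * n := by
    rw [hc]
    field_simp
    ring
  have up := mp_le k n _ (by omega) f3 (c := c * n) (by positivity) (by linarith)
  have lo := hn0 (Fin n) G ((n * (c * n - 1) - 4 * ρ * (k * ((1 - γ) * n + 1))) / 2)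
    (by rwa [Fintype.card_fin]) fun w t D hcl => by
      have := D.core_wide (H := (1 - γ) * n + 1) (m := c * n - 1) hk
        (nonadj_le G hG (by linarith)) hcl (by linarith)
        (by
          rw [Fintype.card_fin]
          rw [div_eq_iff k0.ne'] at nk
          linarith)
        (by nlinarith) (by linarith)
      rw [Fintype.card_fin] at this
      linarith
  rw [eG, Fintype.card_fin] at lo
  clear hn0 hN
  generalize (minPacking (k + 1) n ⌊γ * n⌋₊ : ℝ) = f at *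
  have n2 : (0 : ℝ) < n ^ 2 := by positivity
  have key : f / n ^ 2 - c / 2 = (f - c / 2 * n ^ 2) / n ^ 2 := by field_simp
  rw [Real.dist_eq, key, abs_lt, lt_div_iff₀ n2, div_lt_iff₀ n2]
  have b1 := mul_lt_mul_of_pos_right a3 n0'
  have b2 := mul_lt_mul_of_pos_right a4 n0'
  have b3 : ρ * k * ((1 - γ) * n + 1) ≤ ρ * k * (2 * n) :=
    mul_le_mul_of_nonneg_left (by nlinarith) (by positivity)
  have b4 : k * (c * n) ≤ k * n := mul_le_mul_of_nonneg_left (by nlinarith) (by positivity)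
  have b6 : (k : ℝ) ≤ k * n := by nlinarith
  constructor
  · nlinarith
  · nlinarith

end Pool.Agent.Lib.YL60
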