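import Pool.Agent.Lib.YL60.Inner

namespace Pool.Agent.Lib.YL60

open Finset
open scoped Classical

variable {V : Type} [Fintype V] {w : V → V → ℝ} {t : V → V → V → ℝ} {ρ : ℝ}
  {G : SimpleGraph V} {ν H : ℝ} {k : ℕ} {S : Finset V} {g : V → ℝ} {p : V → V}

lemma nn_eq (Q : Finset V) (y : V) :
    nn G Q y = ∑ z ∈ Q, if ¬ G.Adj y z then (1 : ℝ) else 0 := by
  unfold nn
  rw [← sum_filter]
  simp

lemma nn_oth (i y : V) :
    nn G (oth G S p i) y = ∑ l ∈ S.erase i, nn G (good G S p l) y := by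
  rw [nn_eq, sum_oth]
  exact sum_congr rfl fun l _ => (nn_eq _ _).symm

/-- A vertex with spread weights pays through transversal cliques. -/
lemma Dat.mvertex (h : Dat w t ρ) (H0 : 0 < H)
    (hH : ∀ x, ((univ.filter fun y => ¬ G.Adj x y).card : ℝ) ≤ H)
    (hcl : ∀ K, G.IsNClique (k + 1) K → 1 ≤ cost w t K) (I : Inv G w t ν k S g p)
    {ω : ℝ} (hω : ω = 1 - cost w t S) (ω0 : 0 ≤ ω) {E aR Z : ℝ}
    (hE : E = k * H - ((cn G S)ᶜ).card) (E1 : 84 * E ≤ H)
    (haR : aR = ∑ y ∈ (cn G S)ᶜ, mc w t S y)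
    (hZ : Z = ∑ l ∈ S, ∑ y ∈ good G S p l, ∑ z ∈ oth G S p l, pen G w ω y z)
    {v i : V} (vT : v ∈ cn G S) (hi : i ∈ S) (hm : ∀ a ∈ S, w a v ≤ w i v) :
    25 * H ^ 2 * (min (mc w t (S.erase i) v) ω - 8 * (mc w t S v - ω) - tau t S v) -
        175 * H * (max (ω - mc w t (S.erase i) v) 0 * nn G (oth G S p i) v) ≤
      30 * H * (∑ z ∈ oth G S p i, w v z + aR + k * ρ) + 18 * Z := by
  have r0 := h.r0
  have pn := fun y z => h.pen_nonneg (G := G) ω0 y z
  obtain ⟨Λ, hΛ⟩ : ∃ Λ, Λ = (S.erase i).filter fun l => 7 * nn G (good G S p l) v ≤ H := ⟨_, rfl⟩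
  have Λ1 : Λ ⊆ S.erase i := hΛ ▸ filter_subset _ _
  have Λ2 : Λ ⊆ S := Λ1.trans (erase_subset _ _)
  obtain ⟨A, hA⟩ : ∃ A : V → Finset V, ∀ l, A l = (good G S p l).filter fun z => G.Adj v z :=
    ⟨_, fun _ => rfl⟩
  have A1 : ∀ l, A l ⊆ good G S p l := fun l => hA l ▸ filter_subset _ _
  have A2 : ∀ l ∈ Λ, 5 * H / 6 ≤ ((A l).card : ℝ) := by
    intro l hl
    have a := def_le hH I (Λ2 hl)
    have b := card_filter_add_card_filter_not (s := good G S p l) fun z => G.Adj v z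
    have c : ((A l).card : ℝ) + nn G (good G S p l) v = (good G S p l).card := by
      rw [hA]
      unfold nn
      exact_mod_cast b
    rw [hΛ] at hl
    have := (mem_filter.1 hl).2
    linarith
  have K1 : G.IsNClique (S \ Λ).card (S \ Λ) :=
    ⟨I.cl.1.subset (coe_subset.2 sdiff_subset), rfl⟩
  obtain ⟨nv, K2⟩ := clique_insert K1 (y := v) fun x hx => mem_cn.1 vT x (mem_sdiff.1 hx).1
  have tr := h.transversal hcl ω0 (show 0 < 5 * H / 6 by positivity)
    (min_le_left 1 (cost w t (insert v (S \ Λ)) + ω)) A Λ A2 _ _ K2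
    (by
      have := card_sdiff_add_card_eq_card Λ2
      have := I.cl.2
      omega) (min_le_right _ _)
  have B1 : ∑ l ∈ Λ, ∑ y ∈ A l, ∑ a ∈ insert v (S \ Λ), pen G w ω a y ≤
      ∑ z ∈ oth G S p i, w v z + aR := by
    have a : ∀ l ∈ Λ, ∑ y ∈ A l, ∑ a ∈ insert v (S \ Λ), pen G w ω a y ≤
        ∑ y ∈ good G S p l, w v y + ∑ y ∈ good G S p l, mc w t S y := by
      intro l hl
      rw [← sum_add_distrib]
      refine le_trans (sum_le_sum fun y hy => ?_) (sum_le_sum_of_subset_of_nonneg (A1 l)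
        fun y _ _ => add_nonneg (h.w0 v y) (h.mc_nonneg S y))
      rw [hA] at hy
      obtain ⟨y1, y2⟩ := mem_filter.1 hy
      have b : ∑ a ∈ S \ Λ, pen G w ω a y = ∑ a ∈ S \ Λ, w a y := sum_congr rfl fun a ha => by
        have := (mem_filter.1 y1).2.2 a (mem_sdiff.1 ha).1
          (by rintro rfl; exact (mem_sdiff.1 ha).2 hl)
        simp [pen, this]
      have c := h.mc_mono (sdiff_subset (s := S) (t := Λ)) y
      have d := h.tau_nonneg (S \ Λ) y
      have e : pen G w ω v y = w v y := by simp [pen, y2]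
      rw [sum_insert nv, b, e]
      unfold mc at c ⊢
      linarith
    refine (sum_le_sum a).trans ?_
    rw [sum_add_distrib, sum_oth, haR]
    exact add_le_add
      (sum_le_sum_of_subset_of_nonneg Λ1 fun l _ _ => sum_nonneg fun y _ => h.w0 v y)
      ((sum_le_sum_of_subset_of_nonneg Λ2 fun l _ _ =>
        sum_nonneg fun y _ => h.mc_nonneg S y).trans (sum_good_le _ fun y => h.mc_nonneg S y))
  have B2 : ∑ l ∈ Λ, ∑ l' ∈ Λ.erase l, ∑ y ∈ A l, ∑ z ∈ A l', pen G w ω y z ≤ Z := by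
    rw [hZ]
    refine le_trans (sum_le_sum fun l _ => ?_) (sum_le_sum_of_subset_of_nonneg Λ2
      fun l _ _ => sum_nonneg fun y _ => sum_nonneg fun z _ => pn y z)
    rw [sum_comm]
    refine le_trans (sum_le_sum fun y _ => ?_) (sum_le_sum_of_subset_of_nonneg (A1 l)
      fun y _ _ => sum_nonneg fun z _ => pn y z)
    rw [sum_oth]
    exact (sum_le_sum fun l' _ => sum_le_sum_of_subset_of_nonneg (A1 l') fun z _ _ => pn y z).trans
      (sum_le_sum_of_subset_of_nonneg (erase_subset_erase _ Λ2)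
        fun l' _ _ => sum_nonneg fun z _ => pn y z)
  have B3 : (Λ.card : ℝ) * ρ ≤ k * ρ := by
    refine mul_le_mul_of_nonneg_right ?_ r0
    rw [← I.cl.2]
    exact_mod_cast card_le_card Λ2
  obtain ⟨wD, hwD⟩ : ∃ x, x = ∑ l ∈ S.erase i, if l ∈ Λ then 0 else w l v := ⟨_, rfl⟩
  have wD0 : 0 ≤ wD := hwD ▸ sum_nonneg fun l _ => by
    split_ifs
    · exact le_rfl
    · exact h.w0 l v
  have C1 : ∑ a ∈ S \ Λ, w a v ≤ w i v + wD := by
    have a : ∑ a ∈ S \ Λ, w a v = ∑ l ∈ S, if l ∈ Λ then 0 else w l v := by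
      rw [sdiff_eq_filter, sum_filter]
      exact sum_congr rfl fun l _ => by by_cases c : l ∈ Λ <;> simp [c]
    rw [a, ← add_sum_erase S _ hi, ← hwD, if_neg fun c => notMem_erase i S (Λ1 c)]
  have C2 : H * wD ≤ 7 * (w i v * nn G (oth G S p i) v) := by
    rw [hwD, nn_oth, mul_sum, mul_sum, mul_sum]
    refine sum_le_sum fun l hl => ?_
    have a := mul_nonneg (h.w0 i v) (nn_nonneg (G := G) (good G S p l) v)
    split_ifs with c
    · linarith
    · have b : H ≤ 7 * nn G (good G S p l) v := by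
        by_contra e
        exact c (hΛ ▸ mem_filter.2 ⟨hl, (not_le.1 e).le⟩)
      have := mul_le_mul b (hm l (mem_of_mem_erase hl)) (h.w0 l v) (H0.le.trans b)
      linarith
  have C3 : cost w t (insert v (S \ Λ)) ≤ cost w t S + (w i v + wD + tau t S v) := by
    rw [h.cost_insert nv]
    have a := h.cost_mono (sdiff_subset (s := S) (t := Λ))
    have b := h.tau_mono (sdiff_subset (s := S) (t := Λ)) v
    unfold mc
    linarith
  have C4 := h.mc_erase hi v
  have C5 := h.mc_ge hcl I.cl vT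
  have C6 := h.tau_nonneg S v
  have n0 := nn_nonneg (G := G) (oth G S p i) v
  have n1 := nn_le hH (oth G S p i) v
  have u1 := le_max_left (ω - mc w t (S.erase i) v) 0
  have x1 := min_le_left (mc w t (S.erase i) v) ω
  have x2 := min_le_right (mc w t (S.erase i) v) ω
  have C7 : cost w t (insert v (S \ Λ)) + (min (mc w t (S.erase i) v) ω - (mc w t S v - ω) - wD -
      tau t S v) ≤ min 1 (cost w t (insert v (S \ Λ)) + ω) := le_min (by linarith) (by linarith)
  have g0 : 0 < 5 * H / 6 := by positivity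
  have D1 := div_le_div_of_nonneg_right B1 g0.le
  have D2 := div_le_div_of_nonneg_right B2 (show 0 ≤ 2 * (5 * H / 6) ^ 2 by positivity)
  have D3 := div_le_div_of_nonneg_right B3 g0.le
  generalize nn G (oth G S p i) v = N at *
  generalize max (ω - mc w t (S.erase i) v) 0 = u at *
  generalize min (mc w t (S.erase i) v) ω = x at *
  generalize ∑ z ∈ oth G S p i, w v z = Cr at *
  have D4 : x - (mc w t S v - ω) - wD - tau t S v ≤
      (Cr + aR) / (5 * H / 6) + Z / (2 * (5 * H / 6) ^ 2) + k * ρ / (5 * H / 6) := by linarith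
  have D5 := mul_le_mul_of_nonneg_left D4 (show 0 ≤ 25 * H ^ 2 by positivity)
  have D6 : 25 * H ^ 2 * ((Cr + aR) / (5 * H / 6) + Z / (2 * (5 * H / 6) ^ 2) +
      k * ρ / (5 * H / 6)) = 30 * H * (Cr + aR + k * ρ) + 18 * Z := by
    field_simp
    ring
  have D7 := mul_le_mul_of_nonneg_right (show w i v ≤ u + (mc w t S v - ω) by linarith) n0
  have D8 := mul_le_mul_of_nonneg_left n1 (show 0 ≤ mc w t S v - ω by linarith)
  have D9 := mul_le_mul_of_nonneg_left
    (show H * wD ≤ 7 * (u * N) + 7 * ((mc w t S v - ω) * H) by linarith) H0.le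
  linarith

end Pool.Agent.Lib.YL60
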