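import Pool.Agent.Lib.YL60.Tr

namespace Pool.Agent.Lib.YL60

open Finset
open scoped Classical

variable {V : Type} [Fintype V] {w : V → V → ℝ} {t : V → V → V → ℝ} {ρ : ℝ}
  {G : SimpleGraph V} {ν H : ℝ} {k : ℕ} {S : Finset V} {g : V → ℝ} {p : V → V}

/-- The good vertices of the other parts. -/
noncomputable def oth (G : SimpleGraph V) (S : Finset V) (p : V → V) (i : V) : Finset V :=
  (S.erase i).biUnion (good G S p)

/-- Common neighbours assigned to `i`. -/
noncomputable def tf (G : SimpleGraph V) (S : Finset V) (π : V → V) (i : V) : Finset V :=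
  (cn G S).filter fun y => π y = i

/-- The part of `i`. -/
noncomputable def part (G : SimpleGraph V) (S : Finset V) (p π : V → V) (i : V) : Finset V :=
  tf G S π i ∪ good G S p i

lemma good_disj {i j : V} (hij : i ≠ j) : Disjoint (good G S p i) (good G S p j) :=
  disjoint_left.2 fun _ a b => hij ((mem_filter.1 a).2.1.symm.trans (mem_filter.1 b).2.1)

lemma good_out {i y : V} (hy : y ∈ good G S p i) : y ∉ cn G S :=
  mem_compl.1 (mem_filter.1 hy).1

lemma sum_oth (i : V) (f : V → ℝ) :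
    ∑ z ∈ oth G S p i, f z = ∑ l ∈ S.erase i, ∑ z ∈ good G S p l, f z :=
  sum_biUnion fun _ _ _ _ hab => good_disj hab

lemma sum_good_le (f : V → ℝ) (f0 : ∀ y, 0 ≤ f y) :
    ∑ l ∈ S, ∑ z ∈ good G S p l, f z ≤ ∑ z ∈ (cn G S)ᶜ, f z := by
  rw [← sum_biUnion fun _ _ _ _ hab => good_disj hab]
  refine sum_le_sum_of_subset_of_nonneg (fun y hy => ?_) fun y _ _ => f0 y
  obtain ⟨l, -, hl⟩ := mem_biUnion.1 hy
  exact mem_compl.2 (good_out hl)

lemma part_adj {π : V → V} {i z : V} (hz : z ∈ part G S p π i) :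
    ∀ x ∈ S, x ≠ i → G.Adj x z := by
  rcases mem_union.1 hz with a | a
  · exact fun x hx _ => mem_cn.1 (mem_filter.1 a).1 x hx
  · exact (mem_filter.1 a).2.2

lemma part_disj (π : V → V) (i : V) : Disjoint (part G S p π i) (oth G S p i) := by
  refine disjoint_left.2 fun z a b => ?_
  obtain ⟨l, hl, c⟩ := mem_biUnion.1 b
  rcases mem_union.1 a with a | a
  · exact good_out c (mem_filter.1 a).1
  · exact disjoint_left.1 (good_disj (ne_of_mem_erase hl)) c a

lemma sum_part (π : V → V) (i : V) (f : V → ℝ) :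
    ∑ z ∈ part G S p π i, f z = ∑ z ∈ tf G S π i, f z + ∑ z ∈ good G S p i, f z :=
  sum_union (disjoint_left.2 fun _ a b => good_out b (mem_filter.1 a).1)

lemma sum_tf {π : V → V} (hπ : ∀ v, π v ∈ S) (f : V → ℝ) :
    ∑ i ∈ S, ∑ z ∈ tf G S π i, f z = ∑ z ∈ cn G S, f z :=
  sum_fiberwise_of_maps_to (s := cn G S) (t := S) (g := π) (fun v _ => hπ v) f

lemma Dat.deg_split (h : Dat w t ρ) (π : V → V) (i y : V) :
    ∑ z ∈ part G S p π i, w y z + ∑ z ∈ oth G S p i, w y z ≤ ∑ z, w y z := by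
  rw [← sum_union (part_disj π i)]
  exact sum_le_sum_of_subset_of_nonneg (subset_univ _) fun z _ _ => h.w0 y z

lemma nn_le (hH : ∀ x, ((univ.filter fun y => ¬ G.Adj x y).card : ℝ) ≤ H) (Q : Finset V) (y : V) :
    nn G Q y ≤ H := by
  have a := nn_add hH (disjoint_empty_left Q) y
  have := nn_nonneg (G := G) ∅ y
  linarith

/-- Degrees outside the common neighbourhood. -/
lemma Dat.cr (h : Dat w t ρ) (H0 : 0 ≤ H)
    (hH : ∀ x, ((univ.filter fun y => ¬ G.Adj x y).card : ℝ) ≤ H)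
    (hcl : ∀ K, G.IsNClique (k + 1) K → 1 ≤ cost w t K) (I : Inv G w t ν k S g p)
    {ω : ℝ} (hω : ω = 1 - cost w t S) (ω0 : 0 ≤ ω) {π : V → V} (hπ : ∀ v, π v ∈ S)
    {T1 E aR DR X Z : ℝ} (hT : T1 = (cn G S).card) (hE : E = k * H - ((cn G S)ᶜ).card)
    (haR : aR = ∑ y ∈ (cn G S)ᶜ, mc w t S y) (hDR : DR = ∑ y ∈ (cn G S)ᶜ, ∑ z, w y z)
    (hX : X = ∑ v ∈ cn G S, min (mc w t (S.erase (π v)) v) ω)
    (hZ : Z = ∑ l ∈ S, ∑ y ∈ good G S p l, ∑ z ∈ oth G S p l, pen G w ω y z) (T2 : T1 ≤ 2 * H) :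
    ω * H * T1 - H * X + Z - 6 * H * (aR + ω * E) - k * H * ρ ≤ DR := by
  have r0 := h.r0
  have pl : ∀ l ∈ S, ω * H * (∑ z ∈ tf G S π l, (1 : ℝ)) -
      H * (∑ v ∈ tf G S π l, min (mc w t (S.erase (π v)) v) ω) +
      ∑ y ∈ good G S p l, ∑ z ∈ oth G S p l, pen G w ω y z -
      4 * H * (∑ y ∈ good G S p l, mc w t S y) - 3 * H * ω * (H - (good G S p l).card) - H * ρ ≤
      ∑ y ∈ good G S p l, ∑ z, w y z := by
    intro l hl
    obtain ⟨τ, hτ⟩ : ∃ τ : ℝ, τ = ∑ z ∈ tf G S π l, (1 : ℝ) := ⟨_, rfl⟩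
    obtain ⟨Xl, hXl⟩ : ∃ x, x = ∑ v ∈ tf G S π l, min (mc w t (S.erase (π v)) v) ω := ⟨_, rfl⟩
    obtain ⟨al, hal⟩ : ∃ x, x = ∑ y ∈ good G S p l, mc w t S y := ⟨_, rfl⟩
    obtain ⟨c, hc⟩ : ∃ c : ℝ, c = (good G S p l).card := ⟨_, rfl⟩
    have τ0 : 0 ≤ τ := hτ ▸ sum_nonneg fun _ _ => zero_le_one
    have τ2 : τ ≤ 2 * H := by
      refine le_trans ?_ T2
      rw [hτ, hT, sum_const, nsmul_eq_mul, mul_one]
      exact_mod_cast card_filter_le _ _
    have X0 : 0 ≤ Xl := hXl ▸ sum_nonneg fun v _ => le_min (h.mc_nonneg _ v) ω0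
    have a0 : 0 ≤ al := hal ▸ sum_nonneg fun v _ => h.mc_nonneg _ v
    have c0 : 0 ≤ c := hc ▸ Nat.cast_nonneg _
    have c1 : c ≤ H := hc ▸ good_le hH I l
    have pt : ∀ y ∈ good G S p l, ω * τ - ω * (H - c) - Xl - al - ρ - 3 * H * mc w t S y +
        ∑ z ∈ oth G S p l, pen G w ω y z ≤ ∑ z, w y z := by
      intro y hy
      obtain ⟨u, hu⟩ : ∃ u, u = max (ω - mc w t (S.erase l) y) 0 := ⟨_, rfl⟩
      have u0 : 0 ≤ u := hu ▸ le_max_right _ _
      have y0 := h.mc_nonneg (S.erase l) y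
      have y1 := h.mc_mono (erase_subset l S) y
      have u1 : u ≤ ω := hu ▸ max_le (by linarith) ω0
      have u2 : ω - mc w t S y ≤ u := hu ▸ le_max_of_le_left (by linarith)
      have a := h.inner hH hcl I.cl hω hl (mem_filter.1 hy).2.2 (P := part G S p π l)
        (fun z hz => part_adj hz) (part_disj π l) u0 hu.le
        (fun z => u - min (mc w t (S.erase l) z) ω)
        (fun z _ => by have := le_min (h.mc_nonneg (S.erase l) z) ω0; linarith)
        (fun z _ => by
          have z0 := h.mc_nonneg (S.erase l) z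
          rcases le_total (mc w t (S.erase l) z) ω with q | q
          · rw [min_eq_left q]
            rcases le_total (ω - mc w t (S.erase l) y) 0 with e | e
            · rw [max_eq_right e] at hu
              exact le_max_of_le_right (by linarith)
            · rw [max_eq_left e] at hu
              exact le_max_of_le_left (by linarith)
          · rw [min_eq_right q]
            exact le_max_of_le_right (by linarith))
      have b := h.deg_split (G := G) (S := S) (p := p) π l y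
      have e1 : ∑ z ∈ tf G S π l, (u - min (mc w t (S.erase l) z) ω) = u * τ - Xl := by
        rw [hτ, hXl, mul_sum, ← sum_sub_distrib]
        exact sum_congr rfl fun z hz => by rw [(mem_filter.1 hz).2, mul_one]
      have e2 : u * c - al ≤ ∑ z ∈ good G S p l, (u - min (mc w t (S.erase l) z) ω) := by
        rw [hc, hal, mul_comm, ← nsmul_eq_mul, ← sum_const, ← sum_sub_distrib]
        exact sum_le_sum fun z _ => by
          have := min_le_left (mc w t (S.erase l) z) ω
          have := h.mc_mono (erase_subset l S) z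
          linarith
      rw [sum_part, e1] at a
      rw [sum_pen]
      have n0 := nn_nonneg (G := G) (oth G S p l) y
      have n1 := nn_le hH (oth G S p l) y
      generalize nn G (oth G S p l) y = N at *
      have d1 := mul_le_mul_of_nonneg_right u2 (add_nonneg τ0 n0)
      have d2 := mul_le_mul_of_nonneg_left (show τ + N ≤ 3 * H by linarith) (y0.trans y1)
      have d3 := mul_le_mul_of_nonneg_right u1 (sub_nonneg.2 c1)
      linarith
    have s := sum_le_sum pt
    rw [sum_add_distrib, sum_sub_distrib, ← mul_sum, sum_const, nsmul_eq_mul, ← hc, ← hal] at s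
    rw [← hτ, ← hXl, ← hal, ← hc]
    have d1 := mul_le_mul_of_nonneg_left τ2 (mul_nonneg ω0 (sub_nonneg.2 c1))
    have d2 := mul_le_mul_of_nonneg_right c1
      (show 0 ≤ ω * (H - c) + Xl + al + ρ by have := mul_nonneg ω0 (sub_nonneg.2 c1); linarith)
    linarith
  have s := sum_le_sum pl
  simp only [sum_add_distrib, sum_sub_distrib (s := S), ← mul_sum (s := S)] at s
  rw [sum_tf hπ, sum_tf hπ, ← hX, ← hZ] at s
  have b1 := sum_good_le (G := G) (S := S) (p := p) (fun y => ∑ z, w y z)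
    fun y => sum_nonneg fun z _ => h.w0 y z
  have b2 := sum_good_le (G := G) (S := S) (p := p) (mc w t S) fun y => h.mc_nonneg S y
  have b3 := good_sum hH I
  rw [← hE, sum_sub_distrib] at b3
  rw [← haR] at b2
  rw [← hDR] at b1
  have b4 := mul_le_mul_of_nonneg_left b2 H0
  have b5 := mul_le_mul_of_nonneg_left b3 (mul_nonneg H0 ω0)
  have b6 : 0 ≤ H * aR := mul_nonneg H0 (haR ▸ sum_nonneg fun y _ => h.mc_nonneg S y)
  simp only [sum_const, nsmul_eq_mul, mul_one, I.cl.2] at s b5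
  rw [← hT] at s
  linarith

end Pool.Agent.Lib.YL60
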