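import Pool.Agent.Lib.YL60.Core
import Pool.Agent.Lib.MP_dcb632_co.Limit

namespace Pool.Agent.Lib.YL60

open Finset Pool.Agent.Lib.MP_dcb632_co
open scoped Classical

/-- Linear programming duality for packing problems. -/
lemma pack_dual {ι κ : Type} [Fintype ι] [Fintype κ] (A : ι → κ → ℝ) (cap : ι → ℝ) {val : ℝ}
    (hA1 : ∀ K, 1 ≤ ∑ i, A i K) (hc : ∀ i, 0 ≤ cap i) (hv : 0 ≤ val)
    (hd : ∀ z : ι → ℝ, (∀ i, 0 ≤ z i) → (∀ K, 1 ≤ ∑ i, z i * A i K) → val ≤ ∑ i, cap i * z i) :
    ∃ x : κ → ℝ, (∀ K, 0 ≤ x K) ∧ (∀ i, ∑ K, x K * A i K ≤ cap i) ∧ ∑ K, x K = val := by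
  obtain ⟨N, hN⟩ : ∃ N : ℝ, N = ∑ i, cap i + 1 := ⟨_, rfl⟩
  have c0 : 0 ≤ ∑ i, cap i := sum_nonneg fun i _ => hc i
  have N0 : 0 < N := by linarith
  obtain ⟨a, a0, a1⟩ := Top.farkas (κ := Option (κ ⊕ ι)) (ι := Option ι)
    (fun P j => match P, j with
      | none, _ => 0
      | some (Sum.inl K), none => N
      | some (Sum.inl K), some i => N * A i K
      | some (Sum.inr _), none => 0
      | some (Sum.inr l), some i => if i = l then N else 0)
    (fun j => match j with
      | none => val
      | some i => cap i)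
    (by
      intro y u hy
      have u0 : 0 < u := by simpa using hy none
      have u1 : ∀ l, y (some l) * N < u := fun l => by
        simpa [Fintype.sum_option] using hy (some (Sum.inr l))
      have u2 : ∀ K, y none * N + ∑ i, y (some i) * (N * A i K) < u := fun K => by
        simpa [Fintype.sum_option] using hy (some (Sum.inl K))
      obtain ⟨η, hη⟩ : ∃ η, η = u / N := ⟨_, rfl⟩
      have e : u = η * N := by rw [hη]; field_simp
      have η0 : 0 < η := hη ▸ div_pos u0 N0
      have z0 : ∀ l, 0 ≤ η - y (some l) := fun l => by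
        have := u1 l
        rw [e] at this
        linarith [lt_of_mul_lt_mul_right this N0.le]
      have z1 : ∀ K, y none ≤ ∑ i, (η - y (some i)) * A i K := fun K => by
        have a := u2 K
        have b : ∑ i, y (some i) * (N * A i K) = (∑ i, y (some i) * A i K) * N := by
          rw [sum_mul]
          exact sum_congr rfl fun i _ => by ring
        rw [b, e, ← add_mul] at a
        have c := lt_of_mul_lt_mul_right a N0.le
        simp only [sub_mul, sum_sub_distrib, ← mul_sum]
        have := mul_le_mul_of_nonneg_left (hA1 K) η0.le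
        linarith
      have z2 : ∑ i, cap i * (η - y (some i)) = η * ∑ i, cap i - ∑ i, y (some i) * cap i := by
        rw [mul_sum, ← sum_sub_distrib]
        exact sum_congr rfl fun i _ => by ring
      have z3 : y none * val ≤ ∑ i, cap i * (η - y (some i)) := by
        rcases le_or_gt (y none) 0 with c | c
        · exact (mul_nonpos_of_nonpos_of_nonneg c hv).trans
            (sum_nonneg fun i _ => mul_nonneg (hc i) (z0 i))
        · have := hd (fun i => (η - y (some i)) / y none) (fun i => div_nonneg (z0 i) c.le)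
            (fun K => by
              simp only [div_mul_eq_mul_div, ← sum_div]
              rw [le_div_iff₀ c, one_mul]
              exact z1 K)
          simp only [← mul_div_assoc, ← sum_div] at this
          rw [le_div_iff₀ c] at this
          linarith
      simp only [Fintype.sum_option]
      rw [e, hN]
      linarith)
  refine ⟨fun K => a (some (Sum.inl K)) * N, fun K => mul_nonneg (a0 _) N0.le, fun i => ?_, ?_⟩
  · have := a1 (some i)
    simp only [Fintype.sum_option, Fintype.sum_sum_type, mul_zero, zero_add, mul_ite,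
      sum_ite_eq, mem_univ, if_true] at this
    have b := mul_nonneg (a0 (some (Sum.inr i))) N0.le
    have c : ∑ K, a (some (Sum.inl K)) * N * A i K = ∑ K, a (some (Sum.inl K)) * (N * A i K) :=
      sum_congr rfl fun K _ => by ring
    rw [c]
    linarith
  · have := a1 none
    simpa [Fintype.sum_option, Fintype.sum_sum_type] using this

variable {V : Type} [Fintype V]

lemma perm3 (K : Finset V) (f : V → V → V → ℝ) :
    ∑ a ∈ K, ∑ b ∈ K, ∑ c ∈ K, (f a b c + f a c b + f b a c + f b c a + f c a b + f c b a) =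
      6 * ∑ a ∈ K, ∑ b ∈ K, ∑ c ∈ K, f a b c := by
  have s23 : ∀ f : V → V → V → ℝ, ∑ a ∈ K, ∑ b ∈ K, ∑ c ∈ K, f a c b =
      ∑ a ∈ K, ∑ b ∈ K, ∑ c ∈ K, f a b c := fun f => sum_congr rfl fun a _ => sum_comm
  have s12 : ∀ f : V → V → V → ℝ, ∑ a ∈ K, ∑ b ∈ K, ∑ c ∈ K, f b a c =
      ∑ a ∈ K, ∑ b ∈ K, ∑ c ∈ K, f a b c := fun f => sum_comm
  have e1 := s23 f
  have e2 := s12 f
  have e3 := (s12 fun a b c => f a c b).trans e1
  have e4 := (s23 fun a b c => f b a c).trans e2
  have e5 := (s23 fun a b c => f b c a).trans e3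
  simp only [sum_add_distrib]
  linarith

/-- From the dual inequality to a spread fractional packing. -/
lemma spread (G : SimpleGraph V) {r : ℕ} (hr : 2 ≤ r) {δ val : ℝ} (hδ : 0 < δ) (hv : 0 ≤ val)
    (hd : ∀ w t, Dat w t (3 / δ) → (∀ K, G.IsNClique r K → 1 ≤ cost w t K) →
      2 * val ≤ ∑ y, ∑ z, w y z) :
    ∃ x : Finset V → ℝ, (∀ K, 0 ≤ x K) ∧
      (∀ S ∈ G.cliqueFinset 2, ∑ K ∈ (G.cliqueFinset r).filter (S ⊆ ·), x K ≤ 1) ∧
      (∀ S ∈ G.cliqueFinset 3, ∑ K ∈ (G.cliqueFinset r).filter (S ⊆ ·), x K ≤ δ) ∧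
      ∑ K ∈ G.cliqueFinset r, x K = val := by
  obtain ⟨x, x0, x1, x2⟩ := pack_dual (ι := (V × V) ⊕ (V × V × V))
    (κ := {K // K ∈ G.cliqueFinset r})
    (fun i K => match i with
      | Sum.inl q => if G.Adj q.1 q.2 ∧ q.1 ∈ K.1 ∧ q.2 ∈ K.1 then 1 else 0
      | Sum.inr q => if (G.Adj q.1 q.2.1 ∧ G.Adj q.1 q.2.2 ∧ G.Adj q.2.1 q.2.2) ∧
          q.1 ∈ K.1 ∧ q.2.1 ∈ K.1 ∧ q.2.2 ∈ K.1 then 1 else 0)
    (fun i => match i with
      | Sum.inl q => if G.Adj q.1 q.2 then 1 else 0
      | Sum.inr q => if G.Adj q.1 q.2.1 ∧ G.Adj q.1 q.2.2 ∧ G.Adj q.2.1 q.2.2 then δ else 0)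
    (val := val)
    (fun K => by
      have hK := SimpleGraph.mem_cliqueFinset_iff.1 K.2
      obtain ⟨a, ha, b, hb, ab⟩ := one_lt_card.1 (show 1 < K.1.card by rw [hK.2]; omega)
      refine le_trans ?_ (single_le_sum (fun i _ => ?_) (mem_univ (Sum.inl (a, b))))
      · simp [hK.1 ha hb ab, ha, hb]
      · rcases i with q | q <;> dsimp only <;> split_ifs <;> norm_num)
    (fun i => by
      rcases i with q | q <;> dsimp only <;> split_ifs <;> first | exact hδ.le | norm_num)
    hv
    (fun z z0 hz => by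
      set z2 : V → V → ℝ := fun a b => if G.Adj a b then z (Sum.inl (a, b)) else 0 with hz2
      set z3 : V → V → V → ℝ := fun a b c =>
        if G.Adj a b ∧ G.Adj a c ∧ G.Adj b c then z (Sum.inr (a, b, c)) else 0 with hz3
      have n2 : ∀ a b, 0 ≤ z2 a b := fun a b => by
        simp only [hz2]
        split_ifs
        · exact z0 _
        · exact le_rfl
      have n3 : ∀ a b c, 0 ≤ z3 a b c := fun a b c => by
        simp only [hz3]
        split_ifs
        · exact z0 _
        · exact le_rfl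
      set t : V → V → V → ℝ := fun a b c =>
        z3 a b c + z3 a c b + z3 b a c + z3 b c a + z3 c a b + z3 c b a with ht
      have t0 : ∀ a b c, 0 ≤ t a b c := fun a b c => by
        simp only [ht]
        linarith [n3 a b c, n3 a c b, n3 b a c, n3 b c a, n3 c a b, n3 c b a]
      have t12 : ∀ a b c, t a b c = t b a c := fun a b c => by
        simp only [ht]
        ring
      have td : ∀ a c, t a a c = 0 := fun a c => by simp [ht, hz3]
      have s0 : ∀ a b, 0 ≤ δ / 3 * ∑ c, t a b c := fun a b =>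
        mul_nonneg (by positivity) (sum_nonneg fun c _ => t0 a b c)
      have D : Dat (fun a b => z2 a b + z2 b a + δ / 3 * ∑ c, t a b c) t (3 / δ) :=
        { w0 := fun a b => by linarith [n2 a b, n2 b a, s0 a b]
          ws := fun a b => by
            rw [sum_congr rfl fun c _ => t12 a b c]
            ring
          wd := fun a => by simp [hz2, td]
          t0 := t0
          t12 := t12
          t23 := fun a b c => by
            simp only [ht]
            ring
          td := td
          r0 := by positivity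
          tr := fun a b => by
            have e : 3 / δ * (δ / 3 * ∑ c, t a b c) = ∑ c, t a b c := by field_simp
            have := mul_nonneg (show 0 ≤ 3 / δ by positivity) (add_nonneg (n2 a b) (n2 b a))
            rw [mul_add, e]
            linarith }
      have main := hd _ _ D fun K hK => by
        have a := hz ⟨K, SimpleGraph.mem_cliqueFinset_iff.2 hK⟩
        simp only [Fintype.sum_sum_type, Fintype.sum_prod_type] at a
        have b1 : ∑ a, ∑ b, z (Sum.inl (a, b)) *
            (if G.Adj a b ∧ a ∈ K ∧ b ∈ K then (1 : ℝ) else 0) = ∑ a ∈ K, ∑ b ∈ K, z2 a b := by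
          rw [← sum_ite_mem_eq K]
          refine sum_congr rfl fun a _ => ?_
          by_cases ha : a ∈ K
          · rw [if_pos ha, ← sum_ite_mem_eq K]
            refine sum_congr rfl fun b _ => ?_
            by_cases hb : b ∈ K <;> by_cases ab : G.Adj a b <;> simp [hz2, ha, hb, ab]
          · simp [ha]
        have b2 : ∑ a, ∑ b, ∑ c, z (Sum.inr (a, b, c)) *
            (if (G.Adj a b ∧ G.Adj a c ∧ G.Adj b c) ∧ a ∈ K ∧ b ∈ K ∧ c ∈ K then (1 : ℝ) else 0) =
            ∑ a ∈ K, ∑ b ∈ K, ∑ c ∈ K, z3 a b c := by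
          rw [← sum_ite_mem_eq K]
          refine sum_congr rfl fun a _ => ?_
          by_cases ha : a ∈ K
          · rw [if_pos ha, ← sum_ite_mem_eq K]
            refine sum_congr rfl fun b _ => ?_
            by_cases hb : b ∈ K
            · rw [if_pos hb, ← sum_ite_mem_eq K]
              refine sum_congr rfl fun c _ => ?_
              by_cases hc : c ∈ K <;> by_cases ab : G.Adj a b ∧ G.Adj a c ∧ G.Adj b c <;>
                simp [hz3, ha, hb, hc, ab]
            · simp [hb]
          · simp [ha]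
        rw [b1, b2] at a
        have c1 : ∑ a ∈ K, ∑ b ∈ K, ∑ c ∈ K, t a b c = 6 * ∑ a ∈ K, ∑ b ∈ K, ∑ c ∈ K, z3 a b c :=
          perm3 K z3
        have c2 : ∑ a ∈ K, ∑ b ∈ K, z2 b a = ∑ a ∈ K, ∑ b ∈ K, z2 a b := sum_comm
        have c3 := sum_nonneg fun a (_ : a ∈ K) => sum_nonneg fun b (_ : b ∈ K) => s0 a b
        unfold cost
        simp only [sum_add_distrib]
        linarith
      have c1 : ∑ a, ∑ b, ∑ c, t a b c = 6 * ∑ a, ∑ b, ∑ c, z3 a b c := perm3 univ z3
      have c2 : ∑ a, ∑ b, z2 b a = ∑ a, ∑ b, z2 a b := sum_comm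
      simp only [sum_add_distrib, ← mul_sum] at main
      rw [c1, c2] at main
      simp only [Fintype.sum_sum_type, Fintype.sum_prod_type]
      have d1 : ∑ a, ∑ b, (if G.Adj a b then (1 : ℝ) else 0) * z (Sum.inl (a, b)) =
          ∑ a, ∑ b, z2 a b :=
        sum_congr rfl fun a _ => sum_congr rfl fun b _ => by simp [hz2]
      have d2 : ∑ a, ∑ b, ∑ c, (if G.Adj a b ∧ G.Adj a c ∧ G.Adj b c then δ else 0) *
          z (Sum.inr (a, b, c)) = δ * ∑ a, ∑ b, ∑ c, z3 a b c := by
        simp only [mul_sum]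
        exact sum_congr rfl fun a _ => sum_congr rfl fun b _ => sum_congr rfl fun c _ => by
          simp [hz3]
      rw [d1, d2]
      linarith)
  have key : ∀ (S : Finset V), ∑ K ∈ (G.cliqueFinset r).filter (S ⊆ ·),
      (if h : K ∈ G.cliqueFinset r then x ⟨K, h⟩ else 0) =
      ∑ K : {K // K ∈ G.cliqueFinset r}, x K * (if S ⊆ K.1 then 1 else 0) := fun S => by
    rw [sum_filter, ← sum_coe_sort]
    exact sum_congr rfl fun K _ => by simp [K.2]
  refine ⟨fun K => if h : K ∈ G.cliqueFinset r then x ⟨K, h⟩ else 0, fun K => ?_,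
    fun S hS => ?_, fun S hS => ?_, ?_⟩
  · dsimp only
    split_ifs
    · exact x0 _
    · exact le_rfl
  · have hS' := SimpleGraph.mem_cliqueFinset_iff.1 hS
    obtain ⟨a, b, ne, rfl⟩ := card_eq_two.1 hS'.2
    have ab : G.Adj a b := hS'.1 (by simp) (by simp) ne
    rw [key]
    have := x1 (Sum.inl (a, b))
    simpa [ab, insert_subset_iff] using this
  · obtain ⟨a, b, c, ab, ac, bc, rfl⟩ :=
      SimpleGraph.is3Clique_iff.1 (SimpleGraph.mem_cliqueFinset_iff.1 hS)
    rw [key]
    have := x1 (Sum.inr (a, b, c))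
    simpa [ab, ac, bc, insert_subset_iff] using this
  · rw [← x2, ← sum_coe_sort]
    exact sum_congr rfl fun K _ => by simp [K.2]

end Pool.Agent.Lib.YL60
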