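import Pool.Agent.Lib.YL60.Core

namespace Pool.Agent.Lib.YL60

open Finset
open scoped Classical

variable {V : Type} [Fintype V] {w : V → V → ℝ} {t : V → V → V → ℝ} {ρ : ℝ}
  {G : SimpleGraph V} {ν H : ℝ} {k : ℕ} {S : Finset V} {g : V → ℝ} {p : V → V}

/-- Pair weight with a penalty on non-adjacent pairs. -/
noncomputable def pen (G : SimpleGraph V) (w : V → V → ℝ) (ω : ℝ) (y z : V) : ℝ :=
  w y z + if G.Adj y z then 0 else ω

lemma Dat.pen_nonneg (h : Dat w t ρ) {ω : ℝ} (ω0 : 0 ≤ ω) (y z : V) : 0 ≤ pen G w ω y z := by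
  unfold pen
  have := h.w0 y z
  split_ifs <;> linarith

lemma Dat.pen_symm (h : Dat w t ρ) (ω : ℝ) (y z : V) : pen G w ω y z = pen G w ω z y := by
  unfold pen
  rw [h.ws y z, G.adj_comm]

lemma Dat.cost_mono (h : Dat w t ρ) {K K' : Finset V} (hK : K ⊆ K') :
    cost w t K ≤ cost w t K' := by
  unfold cost
  have a : ∑ a ∈ K, ∑ b ∈ K, w a b ≤ ∑ a ∈ K', ∑ b ∈ K', w a b :=
    (sum_le_sum fun a _ => sum_le_sum_of_subset_of_nonneg hK fun b _ _ => h.w0 a b).trans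
      (sum_le_sum_of_subset_of_nonneg hK fun a _ _ => sum_nonneg fun b _ => h.w0 a b)
  have b : ∑ a ∈ K, ∑ b ∈ K, ∑ c ∈ K, t a b c ≤ ∑ a ∈ K', ∑ b ∈ K', ∑ c ∈ K', t a b c :=
    (sum_le_sum fun a _ => (sum_le_sum fun b _ =>
      sum_le_sum_of_subset_of_nonneg hK fun c _ _ => h.t0 a b c).trans
        (sum_le_sum_of_subset_of_nonneg hK fun b _ _ => sum_nonneg fun c _ => h.t0 a b c)).trans
      (sum_le_sum_of_subset_of_nonneg hK fun a _ _ =>
        sum_nonneg fun b _ => sum_nonneg fun c _ => h.t0 a b c)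
  linarith

/-- Averaging over transversals. -/
lemma Dat.transversal (h : Dat w t ρ) (hcl : ∀ K, G.IsNClique (k + 1) K → 1 ≤ cost w t K)
    {ω γ θ : ℝ} (ω0 : 0 ≤ ω) (γ0 : 0 < γ) (θ1 : θ ≤ 1) (A : V → Finset V) (Λ : Finset V) :
    (∀ l ∈ Λ, γ ≤ (A l).card) → ∀ (j : ℕ) (K : Finset V), G.IsNClique j K → j + Λ.card = k + 1 →
      θ ≤ cost w t K + ω →
      θ ≤ cost w t K + (∑ l ∈ Λ, ∑ y ∈ A l, ∑ a ∈ K, pen G w ω a y) / γ +
        (∑ l ∈ Λ, ∑ l' ∈ Λ.erase l, ∑ y ∈ A l, ∑ z ∈ A l', pen G w ω y z) / (2 * γ ^ 2) +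
        Λ.card * ρ / γ := by
  have pn := fun y z => h.pen_nonneg (G := G) ω0 y z
  have r0 := h.r0
  induction Λ using Finset.induction_on with
  | empty =>
    intro _ j K hK hj _
    rw [card_empty, add_zero] at hj
    have := hcl K (hj ▸ hK)
    simp only [sum_empty, card_empty, Nat.cast_zero, zero_mul, zero_div, add_zero]
    linarith
  | insert l Λ hl ih =>
    intro hA j K hK hj hθ
    have ih' := ih fun l' hl' => hA l' (mem_insert_of_mem hl')
    rw [card_insert_of_notMem hl] at hj ⊢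
    have e1 : ∑ a ∈ insert l Λ, ∑ l' ∈ (insert l Λ).erase a, ∑ y ∈ A a, ∑ z ∈ A l',
        pen G w ω y z = ∑ a ∈ Λ, ∑ l' ∈ Λ.erase a, ∑ y ∈ A a, ∑ z ∈ A l', pen G w ω y z +
          2 * ∑ y ∈ A l, ∑ l' ∈ Λ, ∑ z ∈ A l', pen G w ω y z := by
      rw [sum_insert hl, erase_insert hl]
      have a1 : ∀ a ∈ Λ, ∑ l' ∈ (insert l Λ).erase a, ∑ y ∈ A a, ∑ z ∈ A l', pen G w ω y z =
          ∑ y ∈ A l, ∑ z ∈ A a, pen G w ω y z +
            ∑ l' ∈ Λ.erase a, ∑ y ∈ A a, ∑ z ∈ A l', pen G w ω y z := fun a ha => by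
        rw [erase_insert_of_ne (by rintro rfl; exact hl ha),
          sum_insert fun c => hl (mem_of_mem_erase c), sum_comm]
        congr 1
        exact sum_congr rfl fun y _ => sum_congr rfl fun z _ => h.pen_symm ω z y
      rw [sum_congr rfl a1, sum_add_distrib, sum_comm (s := A l)]
      ring
    rw [e1, sum_insert hl]
    obtain ⟨B1, hB1⟩ : ∃ B, B = ∑ l ∈ Λ, ∑ y ∈ A l, ∑ a ∈ K, pen G w ω a y := ⟨_, rfl⟩
    obtain ⟨B2, hB2⟩ : ∃ B, B = ∑ a ∈ Λ, ∑ l' ∈ Λ.erase a, ∑ y ∈ A a, ∑ z ∈ A l',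
      pen G w ω y z := ⟨_, rfl⟩
    have B10 : 0 ≤ B1 := hB1 ▸ sum_nonneg fun _ _ => sum_nonneg fun _ _ =>
      sum_nonneg fun _ _ => pn _ _
    have B20 : 0 ≤ B2 := hB2 ▸ sum_nonneg fun _ _ => sum_nonneg fun _ _ =>
      sum_nonneg fun _ _ => sum_nonneg fun _ _ => pn _ _
    have n1 : ∀ y, 0 ≤ ∑ a ∈ K, pen G w ω a y := fun y => sum_nonneg fun _ _ => pn _ _
    have n2 : ∀ y, 0 ≤ ∑ l' ∈ Λ, ∑ z ∈ A l', pen G w ω y z := fun y =>
      sum_nonneg fun _ _ => sum_nonneg fun _ _ => pn _ _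
    rw [← hB2] at ih'
    rw [← hB1, ← hB2]
    obtain ⟨C, hC⟩ : ∃ C, C = cost w t K + B1 / γ + B2 / (2 * γ ^ 2) + Λ.card * ρ / γ := ⟨_, rfl⟩
    have c0 : cost w t K ≤ C := by
      have : 0 ≤ B1 / γ + B2 / (2 * γ ^ 2) + Λ.card * ρ / γ := by positivity
      linarith
    have pt : ∀ y ∈ A l, θ - C ≤ ∑ a ∈ K, pen G w ω a y + tau t K y +
        (∑ l' ∈ Λ, ∑ z ∈ A l', pen G w ω y z) / γ := by
      intro y _
      have m2 : 0 ≤ (∑ l' ∈ Λ, ∑ z ∈ A l', pen G w ω y z) / γ := div_nonneg (n2 y) γ0.le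
      have m3 := h.tau_nonneg K y
      by_cases adj : ∀ a ∈ K, G.Adj a y
      · obtain ⟨ny, hK'⟩ := clique_insert hK adj
        have a := ih' (j + 1) _ hK' (by omega) (by
          have := h.cost_mono (subset_insert y K)
          linarith)
        have b : ∑ l' ∈ Λ, ∑ z ∈ A l', ∑ a ∈ insert y K, pen G w ω a z =
            ∑ l' ∈ Λ, ∑ z ∈ A l', pen G w ω y z + B1 := by
          rw [hB1]
          simp only [sum_insert ny, sum_add_distrib]
        have c : ∑ a ∈ K, w a y ≤ ∑ a ∈ K, pen G w ω a y := sum_le_sum fun a ha => by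
          simp [pen, adj a ha]
        rw [b, h.cost_insert ny, add_div] at a
        unfold mc at a
        linarith
      · push Not at adj
        obtain ⟨a, ha, na⟩ := adj
        have b := single_le_sum (f := fun a => pen G w ω a y) (fun a _ => pn a y) ha
        have c : ω ≤ pen G w ω a y := by
          have := h.w0 a y
          simp only [pen, na, if_false]
          linarith
        linarith
    obtain ⟨B3, hB3⟩ : ∃ B, B = ∑ y ∈ A l, ∑ a ∈ K, pen G w ω a y := ⟨_, rfl⟩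
    obtain ⟨B4, hB4⟩ : ∃ B, B = ∑ y ∈ A l, ∑ l' ∈ Λ, ∑ z ∈ A l', pen G w ω y z := ⟨_, rfl⟩
    have B30 : 0 ≤ B3 := hB3 ▸ sum_nonneg fun y _ => n1 y
    have B40 : 0 ≤ B4 := hB4 ▸ sum_nonneg fun y _ => n2 y
    rw [← hB3, ← hB4]
    have e2 : cost w t K + (B3 + B1) / γ + (B2 + 2 * B4) / (2 * γ ^ 2) +
        ((Λ.card + 1 : ℕ) : ℝ) * ρ / γ = C + (B3 + ρ + B4 / γ) / γ := by
      rw [hC]
      push_cast
      field_simp
      ring
    rw [e2]
    rcases le_total θ C with c | c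
    · have : 0 ≤ (B3 + ρ + B4 / γ) / γ := by positivity
      linarith
    · have s1 := card_nsmul_le_sum _ _ _ pt
      rw [nsmul_eq_mul, sum_add_distrib, sum_add_distrib, ← sum_div, ← hB3, ← hB4] at s1
      have s2 : ∑ y ∈ A l, tau t K y ≤ ρ * cost w t K :=
        (sum_le_sum_of_subset_of_nonneg (subset_univ _) fun y _ _ => h.tau_nonneg K y).trans
          (h.sum_tau K)
      have s3 : ρ * cost w t K ≤ ρ * 1 := mul_le_mul_of_nonneg_left (by linarith) r0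
      have s4 := mul_le_mul_of_nonneg_right (hA l (mem_insert_self _ _)) (sub_nonneg.2 c)
      rw [← sub_le_iff_le_add', le_div_iff₀ γ0]
      linarith

lemma Dat.swap' (h : Dat w t ρ) (hcl : ∀ K, G.IsNClique (k + 1) K → 1 ≤ cost w t K)
    (hS : G.IsNClique k S) {i v y : V} (hi : i ∈ S) (hv : ∀ x ∈ S, x ≠ i → G.Adj x v)
    (hy : ∀ x ∈ S, x ≠ i → G.Adj x y) (hvy : G.Adj v y) :
    1 - cost w t S - mc w t (S.erase i) v - mc w t (S.erase i) y ≤
      w v y + ∑ a ∈ S.erase i, t a v y := by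
  obtain ⟨j, rfl⟩ : ∃ j, k = j + 1 := ⟨k - 1, by
    have := card_pos.2 ⟨i, hi⟩
    rw [hS.2] at this
    omega⟩
  have h0 : G.IsNClique j (S.erase i) :=
    ⟨hS.1.subset (coe_subset.2 (erase_subset _ _)), by rw [card_erase_of_mem hi, hS.2]; rfl⟩
  obtain ⟨n1, h1⟩ := clique_insert h0 (y := v) fun x hx =>
    hv x (mem_of_mem_erase hx) (ne_of_mem_erase hx)
  obtain ⟨n2, h2⟩ := clique_insert h1 (y := y) fun x hx => by
    rcases mem_insert.1 hx with rfl | hx
    · exact hvy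
    · exact hy x (mem_of_mem_erase hx) (ne_of_mem_erase hx)
  have a := hcl _ h2
  rw [h.cost_insert n2, h.cost_insert n1, h.mc_insert n1] at a
  have b := h.cost_mono (erase_subset i S)
  linarith

/-- Number of non-neighbours inside a set. -/
noncomputable def nn (G : SimpleGraph V) (Q : Finset V) (y : V) : ℝ :=
  ((Q.filter fun z => ¬ G.Adj y z).card : ℝ)

lemma nn_nonneg (Q : Finset V) (y : V) : 0 ≤ nn G Q y := Nat.cast_nonneg _

lemma nn_add (hH : ∀ x, ((univ.filter fun y => ¬ G.Adj x y).card : ℝ) ≤ H) {P Q : Finset V}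
    (hd : Disjoint P Q) (y : V) : nn G P y + nn G Q y ≤ H := by
  refine le_trans ?_ (hH y)
  unfold nn
  have a : Disjoint (P.filter fun z => ¬ G.Adj y z) (Q.filter fun z => ¬ G.Adj y z) :=
    disjoint_filter_filter hd
  have b : (P.filter fun z => ¬ G.Adj y z) ∪ (Q.filter fun z => ¬ G.Adj y z) ⊆
      univ.filter fun z => ¬ G.Adj y z :=
    union_subset (filter_subset_filter _ (subset_univ _)) (filter_subset_filter _ (subset_univ _))
  have c := card_le_card b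
  rw [card_union_of_disjoint a] at c
  exact_mod_cast c

lemma sum_pen (ω : ℝ) (Q : Finset V) (y : V) :
    ∑ z ∈ Q, pen G w ω y z = ∑ z ∈ Q, w y z + ω * nn G Q y := by
  unfold pen nn
  rw [sum_add_distrib, sum_ite, sum_const_zero, zero_add, sum_const, nsmul_eq_mul, mul_comm]

/-- Weight from a vertex into its own part. -/
lemma Dat.inner (h : Dat w t ρ) (hH : ∀ x, ((univ.filter fun y => ¬ G.Adj x y).card : ℝ) ≤ H)
    (hcl : ∀ K, G.IsNClique (k + 1) K → 1 ≤ cost w t K) (hS : G.IsNClique k S) {ω : ℝ}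
    (hω : ω = 1 - cost w t S) {i y : V} (hi : i ∈ S) (hy : ∀ x ∈ S, x ≠ i → G.Adj x y)
    {P Q : Finset V} (hP : ∀ z ∈ P, ∀ x ∈ S, x ≠ i → G.Adj x z) (hd : Disjoint P Q)
    {c : ℝ} (c0 : 0 ≤ c) (c1 : c ≤ max (ω - mc w t (S.erase i) y) 0) (f : V → ℝ)
    (f1 : ∀ z ∈ P, f z ≤ c)
    (f2 : ∀ z ∈ P, f z ≤ max (ω - mc w t (S.erase i) y - mc w t (S.erase i) z) 0) :
    ∑ z ∈ P, f z - c * (H - nn G Q y) - ρ ≤ ∑ z ∈ P, w y z := by
  have a1 := nn_add hH hd y
  have a2 := nn_nonneg (G := G) P y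
  have r0 := h.r0
  have w0 : 0 ≤ ∑ z ∈ P, w y z := sum_nonneg fun z _ => h.w0 y z
  rcases c0.eq_or_lt with e | cp
  · have : ∑ z ∈ P, f z ≤ 0 := sum_nonpos fun z hz => e ▸ f1 z hz
    rw [← e]
    linarith
  have x1 : mc w t (S.erase i) y ≤ 1 := by
    have := h.cost_nonneg S
    rcases le_total (ω - mc w t (S.erase i) y) 0 with q | q
    · rw [max_eq_right q] at c1
      linarith
    · linarith
  have pt : ∀ z ∈ P, f z ≤ pen G w c y z + ∑ a ∈ S.erase i, t a y z := by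
    intro z hz
    have b1 := h.w0 y z
    have b2 := sum_nonneg fun a (_ : a ∈ S.erase i) => h.t0 a y z
    unfold pen
    split_ifs with adj
    · have b3 := h.swap' hcl hS hi hy (hP z hz) adj
      exact (f2 z hz).trans (max_le (by linarith) (by linarith))
    · have := f1 z hz
      linarith
  have s1 := sum_le_sum pt
  rw [sum_add_distrib, sum_pen] at s1
  have s2 : ∑ z ∈ P, ∑ a ∈ S.erase i, t a y z ≤ ρ * mc w t (S.erase i) y :=
    (sum_le_sum_of_subset_of_nonneg (subset_univ _) fun z _ _ =>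
      sum_nonneg fun a _ => h.t0 a y z).trans (h.sum_theta _ y)
  have s3 := mul_le_mul_of_nonneg_left x1 r0
  have s4 := mul_le_mul_of_nonneg_left (show nn G P y ≤ H - nn G Q y by linarith) cp.le
  linarith

end Pool.Agent.Lib.YL60
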